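import Mathlib

set_option autoImplicit false

namespace Pool.Agent.Work.MP_6f77e1_co

/-- The number of occurrences of the word `x` as a factor of the word `u`
(for nonempty `x`: the number of suffixes of `u` that start with `x`). -/
def occ (x u : List Bool) : ℕ := u.tails.countP (fun t => x.isPrefixOf t)

/-- `u` and `v` are `k`-abelian equivalent: every word of length between `1` and `k` occurs
as a factor equally often in `u` and in `v`. -/
def KAbelianEquiv (k : ℕ) (u v : List Bool) : Prop :=
  ∀ x : List Bool, 1 ≤ x.length → x.length ≤ k → occ x u = occ x v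

/-- `s` is a 2-abelian square of period `p`: `s = u ++ v` with `u`, `v` nonempty, 2-abelian
equivalent and `|u| = p`. -/
def IsTwoAbelianSquare (s : List Bool) (p : ℕ) : Prop :=
  ∃ u v : List Bool, s = u ++ v ∧ u ≠ [] ∧ v ≠ [] ∧ KAbelianEquiv 2 u v ∧ u.length = p

/-- The factor of length `n` starting at position `i` of the infinite word `w`. -/
def factor (w : ℕ → Bool) (i n : ℕ) : List Bool := List.ofFn (fun j : Fin n => w (i + j))

/-- 2-abelian squares of period at least `k` are avoidable over two letters. -/
def Avoidable (k : ℕ) : Prop :=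
  ∃ w : ℕ → Bool, ∀ i n p : ℕ, k ≤ p → ¬ IsTwoAbelianSquare (factor w i n) p

/-- number of ones among the first `n` letters -/
def S (w : ℕ → Bool) (n : ℕ) : ℕ := ∑ i ∈ Finset.range n, (w i).toNat

/-- number of changes `w i ≠ w (i+1)` with `i < n` -/
def R (w : ℕ → Bool) (n : ℕ) : ℕ := ∑ i ∈ Finset.range n, (w i != w (i + 1)).toNat

/-- numerical consequence of a 2-abelian square at position `c` with period `p ≥ 1`. -/
structure Conf (w : ℕ → Bool) (c p : ℕ) : Prop where
  first : w c = w (c + p)
  last : w (c + p - 1) = w (c + 2 * p - 1)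
  ones : S w (c + 2 * p) + S w c = 2 * S w (c + p)
  chg : R w (c + 2 * p - 1) + R w c = R w (c + p) + R w (c + p - 1)

end Pool.Agent.Work.MP_6f77e1_co
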