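import Mathlib
import Pool.Agent.Work.MP_6f77e1_co.Defs

set_option autoImplicit false

namespace Pool.Agent.Work.MP_6f77e1_co

theorem occ_nil (x : List Bool) (hx : x ≠ []) : occ x [] = 0 := by
  cases x with
  | nil => exact absurd rfl hx
  | cons a x => simp [occ, List.isPrefixOf]

theorem occ_cons (x : List Bool) (a : Bool) (u : List Bool) :
    occ x (a :: u) = (if x.isPrefixOf (a :: u) then 1 else 0) + occ x u := by
  simp only [occ, List.tails_cons, List.countP_cons]
  ring

/-- occurrences of single letters -/
theorem occ_one_cons (a b : Bool) (u : List Bool) :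
    occ [a] (b :: u) = (if a = b then 1 else 0) + occ [a] u := by
  rw [occ_cons]
  simp [List.isPrefixOf]

theorem occ_two_cons_cons (a b c d : Bool) (u : List Bool) :
    occ [a, b] (c :: d :: u) = (if a = c ∧ b = d then 1 else 0) + occ [a, b] (d :: u) := by
  rw [occ_cons]
  simp [List.isPrefixOf]

theorem occ_two_single (a b c : Bool) : occ [a, b] [c] = 0 := by
  rw [occ_cons, occ_nil _ (by simp)]
  simp [List.isPrefixOf]

/-- the first letter (0 or 1) of a nonempty word -/
theorem first_eq (u : List Bool) (a : Bool) :
    occ [true] (a :: u) = occ [false, true] (a :: u) + occ [true, true] (a :: u) + a.toNat := by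
  induction u generalizing a with
  | nil =>
    rw [occ_two_single, occ_two_single, occ_one_cons, occ_nil _ (by simp)]
    cases a <;> simp
  | cons b u ih =>
    have h := ih b
    rw [occ_two_cons_cons, occ_two_cons_cons, occ_one_cons, h]
    cases a <;> cases b <;> simp <;> ring

/-- the last letter -/
theorem last_eq (u : List Bool) (a : Bool) :
    occ [true] (a :: u) = occ [true, false] (a :: u) + occ [true, true] (a :: u) +
      ((a :: u).getLast (List.cons_ne_nil a u)).toNat := by
  induction u generalizing a with
  | nil =>
    rw [occ_two_single, occ_two_single, occ_one_cons, occ_nil _ (by simp)]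
    cases a <;> simp
  | cons b u ih =>
    have h := ih b
    rw [occ_two_cons_cons, occ_two_cons_cons, occ_one_cons, h,
      List.getLast_cons (List.cons_ne_nil b u)]
    cases a <;> cases b <;> simp <;> ring

theorem factor_zero (w : ℕ → Bool) (i : ℕ) : factor w i 0 = [] := by simp [factor]

theorem factor_succ (w : ℕ → Bool) (i n : ℕ) :
    factor w i (n + 1) = w i :: factor w (i + 1) n := by
  simp only [factor, List.ofFn_succ, Fin.val_zero, add_zero, Fin.val_succ]
  congr 2
  ext j
  congr 1
  omega

theorem factor_length (w : ℕ → Bool) (i n : ℕ) : (factor w i n).length = n := by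
  simp [factor]

theorem factor_append (w : ℕ → Bool) (i m n : ℕ) :
    factor w i (m + n) = factor w i m ++ factor w (i + m) n := by
  induction m generalizing i with
  | zero => simp [factor_zero]
  | succ m ih =>
    rw [show m + 1 + n = (m + n) + 1 by ring, factor_succ, factor_succ, ih, List.cons_append,
      show i + (m + 1) = i + 1 + m by ring]

theorem occ_true_factor (w : ℕ → Bool) (i n : ℕ) :
    occ [true] (factor w i n) + S w i = S w (i + n) := by
  induction n generalizing i with
  | zero => rw [factor_zero, occ_nil _ (by simp)]; simp
  | succ n ih =>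
    rw [factor_succ, occ_one_cons]
    have h := ih (i + 1)
    have h2 : S w (i + 1) = S w i + (w i).toNat := by
      simp [S, Finset.sum_range_succ]
    rw [h2, show i + 1 + n = i + (n + 1) by ring] at h
    rw [← h]
    cases w i <;> simp <;> ring

theorem occ_chg_factor (w : ℕ → Bool) (i n : ℕ) :
    occ [false, true] (factor w i (n + 1)) + occ [true, false] (factor w i (n + 1)) + R w i
      = R w (i + n) := by
  induction n generalizing i with
  | zero =>
    rw [factor_succ, factor_zero, occ_two_single, occ_two_single]; simp
  | succ n ih =>
    rw [factor_succ, factor_succ, occ_two_cons_cons, occ_two_cons_cons, ← factor_succ]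
    have h := ih (i + 1)
    have h2 : R w (i + 1) = R w i + (w i != w (i + 1)).toNat := by
      simp [R, Finset.sum_range_succ]
    rw [h2, show i + 1 + n = i + (n + 1) by ring] at h
    rw [← h]
    cases w i <;> cases w (i + 1) <;> simp <;> ring

theorem getLast_factor (w : ℕ → Bool) (i n : ℕ) (h : factor w i (n + 1) ≠ []) :
    (factor w i (n + 1)).getLast h = w (i + n) := by
  induction n generalizing i with
  | zero => simp [factor_succ, factor_zero]
  | succ n ih =>
    have e : factor w i (n + 1 + 1) = w i :: factor w (i + 1) (n + 1) := factor_succ w i (n + 1)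
    have hne : factor w (i + 1) (n + 1) ≠ [] := by
      rw [factor_succ]; exact List.cons_ne_nil _ _
    have : (factor w i (n + 1 + 1)).getLast h = (factor w (i + 1) (n + 1)).getLast hne := by
      simp only [e, List.getLast_cons hne]
    rw [this, ih]
    congr 1
    ring

/-- A 2-abelian square in an infinite word gives the numerical conditions. -/
theorem conf_of_square (w : ℕ → Bool) (i n p : ℕ) (h : IsTwoAbelianSquare (factor w i n) p) :
    1 ≤ p ∧ Conf w i p := by
  obtain ⟨u, v, huv, hu, hv, heq, hp⟩ := h
  have hp1 : 1 ≤ p := by
    rw [← hp]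
    exact Nat.one_le_iff_ne_zero.mpr (fun h0 => hu (List.length_eq_zero_iff.mp h0))
  refine ⟨hp1, ?_⟩
  -- lengths agree
  have hlen : u.length = v.length := by
    have key : ∀ z : List Bool, z.length = occ [true] z + occ [false] z := by
      intro z
      induction z with
      | nil => rw [occ_nil _ (by simp), occ_nil _ (by simp)]; simp
      | cons a z ih =>
        rw [occ_one_cons, occ_one_cons, List.length_cons, ih]
        cases a <;> simp <;> ring
    rw [key u, key v, heq [true] (by simp) (by simp), heq [false] (by simp) (by simp)]
  have hn : n = p + p := by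
    have := congrArg List.length huv
    rw [factor_length, List.length_append, ← hlen, hp] at this
    exact this
  rw [hn, factor_append] at huv
  have h1 : factor w i p = u ∧ factor w (i + p) p = v := by
    apply List.append_inj huv
    rw [factor_length, hp]
  obtain ⟨q, rfl⟩ : ∃ q, p = q + 1 := ⟨p - 1, by omega⟩
  rw [← h1.1, ← h1.2] at heq
  have e1 := heq [true] (by simp) (by simp)
  have e2 := heq [false, true] (by simp) (by simp)
  have e3 := heq [true, false] (by simp) (by simp)
  have e4 := heq [true, true] (by simp) (by simp)
  have s1 := occ_true_factor w i (q + 1)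
  have s2 := occ_true_factor w (i + (q + 1)) (q + 1)
  have r1 := occ_chg_factor w i q
  have r2 := occ_chg_factor w (i + (q + 1)) q
  have f1 := first_eq (factor w (i + 1) q) (w i)
  have f2 := first_eq (factor w (i + (q + 1) + 1) q) (w (i + (q + 1)))
  rw [← factor_succ] at f1 f2
  have l1 := last_eq (factor w (i + 1) q) (w i)
  have l2 := last_eq (factor w (i + (q + 1) + 1) q) (w (i + (q + 1)))
  have g1 : ((w i :: factor w (i + 1) q).getLast (List.cons_ne_nil _ _)) = w (i + q) := by
    rw [← getLast_factor w i q (by rw [factor_succ]; exact List.cons_ne_nil _ _)]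
    simp only [factor_succ]
  have g2 : ((w (i + (q + 1)) :: factor w (i + (q + 1) + 1) q).getLast (List.cons_ne_nil _ _))
      = w (i + (q + 1) + q) := by
    rw [← getLast_factor w (i + (q + 1)) q (by rw [factor_succ]; exact List.cons_ne_nil _ _)]
    simp only [factor_succ]
  rw [g1, ← factor_succ] at l1
  rw [g2, ← factor_succ] at l2
  have inj : ∀ a b : Bool, a.toNat = b.toNat → a = b := by decide
  refine ⟨?_, ?_, ?_, ?_⟩
  · apply inj
    omega
  · have t1 : i + (q + 1) - 1 = i + q := by omega
    have t2 : i + 2 * (q + 1) - 1 = i + (q + 1) + q := by omega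
    rw [t1, t2]
    apply inj
    omega
  · have t1 : i + 2 * (q + 1) = i + (q + 1) + (q + 1) := by ring
    rw [t1]
    omega
  · have t1 : i + (q + 1) - 1 = i + q := by omega
    have t2 : i + 2 * (q + 1) - 1 = i + (q + 1) + q := by omega
    rw [t1, t2]
    omega

end Pool.Agent.Work.MP_6f77e1_co
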