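import Mathlib

set_option autoImplicit false

namespace Pool.Agent.Work.MP_6f77e1_co

/-- Images of the six letters under the 3-uniform morphism
`a → ace, b → adf, c → bdf, d → bdc, e → afe, f → bce`. -/
def hTab : List (List ℕ) :=
  [[0, 2, 4], [0, 3, 5], [1, 3, 5], [1, 3, 2], [0, 5, 4], [1, 2, 4]]

/-- letter number `r` of the image of `a`. -/
def h (a r : ℕ) : ℕ := (hTab.getD a []).getD r 0

/-- The fixed point of the morphism. -/
def X : ℕ → ℕ
  | 0 => 0
  | n + 1 => h (X ((n + 1) / 3)) ((n + 1) % 3)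
decreasing_by omega

theorem X_eq (n : ℕ) : X n = h (X (n / 3)) (n % 3) := by
  cases n with
  | zero => rw [X]; decide
  | succ n => rw [X]

theorem h_lt : ∀ a < 6, ∀ r < 3, h a r < 6 := by decide

theorem X_lt (n : ℕ) : X n < 6 := by
  induction n using Nat.strong_induction_on with
  | _ n ih =>
    rcases Nat.eq_zero_or_pos n with h0 | h0
    · subst h0; rw [X]; norm_num
    · rw [X_eq]
      exact h_lt _ (ih _ (by omega)) _ (by omega)

theorem X_mul (n r : ℕ) (hr : r < 3) : X (3 * n + r) = h (X n) r := by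
  rw [X_eq]
  congr 2
  · omega
  · omega

/-- weighted prefix sum of `X`. -/
def Psi (f : ℕ → ℤ) (n : ℕ) : ℤ := ∑ i ∈ Finset.range n, f (X i)

theorem Psi_succ (f : ℕ → ℤ) (n : ℕ) : Psi f (n + 1) = Psi f n + f (X n) := by
  simp [Psi, Finset.sum_range_succ]

/-- partial sums inside the image of a letter -/
def pp (f : ℕ → ℤ) (a r : ℕ) : ℤ := ∑ j ∈ Finset.range r, f (h a j)

/-- the transposed action of the morphism on weights -/
def MT (f : ℕ → ℤ) (a : ℕ) : ℤ := f (h a 0) + f (h a 1) + f (h a 2)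

theorem Psi_mul (f : ℕ → ℤ) (n : ℕ) : Psi f (3 * n) = Psi (MT f) n := by
  induction n with
  | zero => simp [Psi]
  | succ n ih =>
    rw [show 3 * (n + 1) = 3 * n + 2 + 1 by ring, Psi_succ, Psi_succ, Psi_succ, Psi_succ, ih,
      X_mul n 2 (by norm_num), X_mul n 1 (by norm_num)]
    have := X_mul n 0 (by norm_num)
    rw [add_zero] at this
    rw [this, MT]
    ring

theorem Psi_mul_add (f : ℕ → ℤ) (n r : ℕ) (hr : r < 3) :
    Psi f (3 * n + r) = Psi (MT f) n + pp f (X n) r := by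
  have h0 := X_mul n 0 (by norm_num)
  rw [add_zero] at h0
  have h1 := X_mul n 1 (by norm_num)
  interval_cases r
  · simp [pp, Psi_mul]
  · rw [Psi_succ, Psi_mul, h0]; simp [pp]
  · rw [show 3 * n + 2 = 3 * n + 1 + 1 by ring, Psi_succ, Psi_succ, Psi_mul, h0, h1]
    simp [pp, Finset.sum_range_succ]
    ring

/-- second difference of a weighted prefix sum -/
def DD (f : ℕ → ℤ) (b0 b1 b2 : ℕ) : ℤ := Psi f b2 - 2 * Psi f b1 + Psi f b0

theorem DD_child (f : ℕ → ℤ) (b0 b1 b2 r0 r1 r2 : ℕ) (h0 : r0 < 3) (h1 : r1 < 3) (h2 : r2 < 3) :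
    DD f (3 * b0 + r0) (3 * b1 + r1) (3 * b2 + r2) =
      DD (MT f) b0 b1 b2 + (pp f (X b2) r2 - 2 * pp f (X b1) r1 + pp f (X b0) r0) := by
  rw [DD, DD, Psi_mul_add f b0 r0 h0, Psi_mul_add f b1 r1 h1, Psi_mul_add f b2 r2 h2]
  ring

/-- indicator weight of a letter -/
def ind (c : ℕ) (a : ℕ) : ℤ := if a = c then 1 else 0

theorem Psi_lin (f g : ℕ → ℤ) (n : ℕ) (hfg : ∀ a < 6, f a = g a) : Psi f n = Psi g n :=
  Finset.sum_congr rfl fun i _ => hfg _ (X_lt i)

theorem Psi_expand (f : ℕ → ℤ) (n : ℕ) :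
    Psi f n = f 0 * Psi (ind 0) n + f 1 * Psi (ind 1) n + f 2 * Psi (ind 2) n +
      f 3 * Psi (ind 3) n + f 4 * Psi (ind 4) n + f 5 * Psi (ind 5) n := by
  induction n with
  | zero => simp [Psi]
  | succ n ih =>
    have key : ∀ a < 6, f a = f 0 * ind 0 a + f 1 * ind 1 a + f 2 * ind 2 a + f 3 * ind 3 a +
        f 4 * ind 4 a + f 5 * ind 5 a := by
      intro a ha
      interval_cases a <;> simp [ind]
    rw [Psi_succ, Psi_succ, Psi_succ, Psi_succ, Psi_succ, Psi_succ, Psi_succ, ih,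
      key _ (X_lt n)]
    ring

/-- the six coordinates of the second difference of Parikh vectors -/
def dv (c b0 b1 b2 : ℕ) : ℤ := DD (ind c) b0 b1 b2

theorem DD_expand (f : ℕ → ℤ) (b0 b1 b2 : ℕ) :
    DD f b0 b1 b2 = f 0 * dv 0 b0 b1 b2 + f 1 * dv 1 b0 b1 b2 + f 2 * dv 2 b0 b1 b2 +
      f 3 * dv 3 b0 b1 b2 + f 4 * dv 4 b0 b1 b2 + f 5 * dv 5 b0 b1 b2 := by
  simp only [dv, DD]
  rw [Psi_expand f b2, Psi_expand f b1, Psi_expand f b0]
  ring

theorem Psi_one (n : ℕ) : Psi (fun _ => 1) n = n := by simp [Psi]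

theorem DD_one (b0 b1 b2 : ℕ) : DD (fun _ => 1) b0 b1 b2 = (b2 : ℤ) - 2 * b1 + b0 := by
  simp [DD, Psi_one]

end Pool.Agent.Work.MP_6f77e1_co
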