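import Mathlib
import Pool.Agent.Work.MP_6f77e1_co.Base
import Pool.Agent.Work.MP_6f77e1_co.Data

set_option autoImplicit false

namespace Pool.Agent.Work.MP_6f77e1_co

/-- evaluation helper: `force n f = f n`, but `n` is evaluated first. -/
def force (n : ℕ) (f : ℕ → Bool) : Bool :=
  match n with
  | 0 => f 0
  | Nat.succ k => f (Nat.succ k)

theorem force_eq (n : ℕ) (f : ℕ → Bool) : force n f = f n := by
  cases n <;> rfl

/-- conjunction of `f i` for `b ≤ i < b + 2 ^ k`, by binary splitting -/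
def allB (f : ℕ → Bool) : ℕ → ℕ → Bool
  | 0, b => f b
  | k + 1, b => allB f k b && allB f k (b + 2 ^ k)

theorem allB_spec (f : ℕ → Bool) (k b : ℕ) (h : allB f k b = true) :
    ∀ i, b ≤ i → i < b + 2 ^ k → f i = true := by
  induction k generalizing b with
  | zero =>
    intro i h1 h2
    have : i = b := by simp at h2; omega
    subst this
    exact h
  | succ k ih =>
    rw [allB, Bool.and_eq_true] at h
    intro i h1 h2
    rw [pow_succ] at h2
    by_cases h3 : i < b + 2 ^ k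
    · exact ih b h.1 i h1 h3
    · exact ih (b + 2 ^ k) h.2 i (by omega) (by omega)

/-- entries of the hash tables -/
def entA (i : ℕ) : ℕ := Nat.mod (Nat.shiftRight tabA (Nat.mul 52 i)) 4503599627370496
def entB (i : ℕ) : ℕ := Nat.mod (Nat.shiftRight tabB (Nat.mul 52 i)) 4503599627370496

/-- membership in the table -/
def inTab (k : ℕ) : Bool :=
  Nat.blt 511 k &&
    (Nat.beq (entA (Nat.mod k 11003)) k || Nat.beq (entB (Nat.mod k 11027)) k)

/-- packed columns of the incidence matrix -/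
def colT : List ℕ := [4398046511104 * 0 + 268435456 + 16384 + 1,
  34359738368 + 2097152 + 1, 34359738368 + 2097152 + 128,
  2097152 + 16384 + 128, 34359738368 + 268435456 + 1, 268435456 + 16384 + 128]

/-- packed prefix vectors -/
def prT : List (List ℕ) :=
  [[0, 1, 1 + 16384], [0, 1, 1 + 2097152], [0, 128, 128 + 2097152], [0, 128, 128 + 2097152],
   [0, 1, 1 + 34359738368], [0, 128, 128 + 16384]]

def pr (a r : ℕ) : ℕ := (prT.getD a []).getD r 0

/-- `φ₁` and `φ₂` of the prefixes, shifted by 10 -/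
def f1T : List (List ℕ) :=
  [[10, 11, 10], [10, 11, 9], [10, 10, 8], [10, 10, 8], [10, 11, 11], [10, 10, 9]]
def f2T : List (List ℕ) :=
  [[10, 11, 10], [10, 11, 11], [10, 8, 8], [10, 8, 8], [10, 11, 13], [10, 8, 7]]
def f1 (a r : ℕ) : ℕ := (f1T.getD a []).getD r 0
def f2 (a r : ℕ) : ℕ := (f2T.getD a []).getD r 0

/-- loop over the three digits -/
def allR (f : ℕ → ℕ → ℕ → Bool) : Bool :=
  (f 0 0 0 && f 0 0 1 && f 0 0 2) && (f 0 1 0 && f 0 1 1 && f 0 1 2) &&
  (f 0 2 0 && f 0 2 1 && f 0 2 2) && (f 1 0 0 && f 1 0 1 && f 1 0 2) &&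
  (f 1 1 0 && f 1 1 1 && f 1 1 2) && (f 1 2 0 && f 1 2 1 && f 1 2 2) &&
  (f 2 0 0 && f 2 0 1 && f 2 0 2) && (f 2 1 0 && f 2 1 1 && f 2 1 2) &&
  (f 2 2 0 && f 2 2 1 && f 2 2 2)

/-- One child. `e3 = 3 E'` where `E'` is the digit sum of the parent; `base` is the packed `M δ'`;
`w1 = 3 z₁' + z₂' + 1000`, `w2 = 3 z₁' - 3 z₂' + 1000` (so `2 z = w - 1000 + 2 c`). -/
def chkChild (a0 a1 a2 e3 base w1 w2 r0 r1 r2 : ℕ) : Bool :=
  -- the length condition fails
  Nat.blt (Nat.add e3 (Nat.add r2 r0)) (Nat.add 287 (Nat.mul 2 r1)) ||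
  Nat.blt (Nat.add 289 (Nat.mul 2 r1)) (Nat.add e3 (Nat.add r2 r0)) ||
  -- in the table
  force (Nat.sub (Nat.add base (Nat.add (pr a2 r2) (pr a0 r0)))
      (Nat.add (Nat.mul 2 (pr a1 r1)) 1108169199648)) (fun D =>
    inTab (Nat.add (h a0 r0) (Nat.add (Nat.mul 8 (h a1 r1)) (Nat.add (Nat.mul 64 (h a2 r2))
      (Nat.mul 512 D))))) ||
  -- out of the region
  force (Nat.add w1 (Nat.mul 2 (Nat.add (f1 a2 r2) (f1 a0 r0)))) (fun u1 =>
    force (Nat.add 1000 (Nat.mul 4 (f1 a1 r1))) (fun v1 =>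
      Nat.blt (Nat.add v1 20) u1 || Nat.blt (Nat.add u1 20) v1 ||
      force (Nat.add w2 (Nat.mul 2 (Nat.add (f2 a2 r2) (f2 a0 r0)))) (fun u2 =>
        force (Nat.add 1000 (Nat.mul 4 (f2 a1 r1))) (fun v2 =>
          Nat.blt (Nat.add v2 24) u2 || Nat.blt (Nat.add u2 24) v2 ||
          Nat.blt (Nat.add (Nat.add v1 u2) 32) (Nat.add u1 v2) ||
          Nat.blt (Nat.add (Nat.add u1 v2) 32) (Nat.add v1 u2) ||
          Nat.blt (Nat.add (Nat.add (Nat.mul 3 v1) v2) 64) (Nat.add (Nat.mul 3 u1) u2) ||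
          Nat.blt (Nat.add (Nat.add (Nat.mul 3 u1) u2) 64) (Nat.add (Nat.mul 3 v1) v2)))))

/-- all children of the template with code `k` -/
def chkKey (k : ℕ) : Bool :=
  force (Nat.mod k 8) (fun a0 => force (Nat.mod (Nat.div k 8) 8) (fun a1 =>
  force (Nat.mod (Nat.div k 64) 8) (fun a2 => force (Nat.div k 512) (fun D =>
  force (Nat.mod D 128) (fun x0 => force (Nat.mod (Nat.div D 128) 128) (fun x1 =>
  force (Nat.mod (Nat.div D 16384) 128) (fun x2 =>
  force (Nat.mod (Nat.div D 2097152) 128) (fun x3 =>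
  force (Nat.mod (Nat.div D 268435456) 128) (fun x4 =>
  force (Nat.mod (Nat.div D 34359738368) 128) (fun x5 =>
  force (Nat.mul 3 (Nat.add x0 (Nat.add x1 (Nat.add x2 (Nat.add x3 (Nat.add x4 x5))))))
    (fun e3 =>
  force (Nat.add (Nat.mul x0 268451841) (Nat.add (Nat.mul x1 34361835521)
    (Nat.add (Nat.mul x2 34361835648) (Nat.add (Nat.mul x3 2113664)
    (Nat.add (Nat.mul x4 34628173825) (Nat.mul x5 268451968)))))) (fun base =>
  force (Nat.sub (Nat.add 1000 (Nat.add (Nat.mul 4 x0) (Nat.add (Nat.mul 6 x4) (Nat.mul 2 x5))))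
    (Nat.add (Nat.mul 2 x1) (Nat.add (Nat.mul 4 x2) (Nat.mul 6 x3)))) (fun w1 =>
  force (Nat.sub (Nat.add 1000 (Nat.add (Nat.mul 6 x1) (Nat.mul 6 x4)))
    (Nat.add (Nat.mul 6 x3) (Nat.mul 6 x5))) (fun w2 =>
  allR (fun r0 r1 r2 => chkChild a0 a1 a2 e3 base w1 w2 r0 r1 r2)))))))))))))))

/-- a digit lies between 8 and 24 -/
def dig (x : ℕ) : Bool := Nat.ble 8 x && Nat.ble x 24

/-- all digits lie between 8 and 24 -/
def chkDig (k : ℕ) : Bool :=
  force (Nat.div k 512) (fun D =>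
    dig (Nat.mod D 128) && dig (Nat.mod (Nat.div D 128) 128) &&
    dig (Nat.mod (Nat.div D 16384) 128) && dig (Nat.mod (Nat.div D 2097152) 128) &&
    dig (Nat.mod (Nat.div D 268435456) 128) && dig (Nat.div D 34359738368))

def chkA (i : ℕ) : Bool := force (entA i) (fun k => Nat.beq k 0 || (chkDig k && chkKey k))
def chkB (i : ℕ) : Bool := force (entB i) (fun k => Nat.beq k 0 || (chkDig k && chkKey k))

end Pool.Agent.Work.MP_6f77e1_co
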