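import Mathlib
import Pool.Agent.Work.MP_6f77e1_co.Chk

set_option autoImplicit false

namespace Pool.Agent.Work.MP_6f77e1_co

theorem chkB_true : allB chkB 14 0 = true := by decide +kernel

end Pool.Agent.Work.MP_6f77e1_co
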