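import Mathlib
import Pool.Agent.Work.MP_6f77e1_co.Base
import Pool.Agent.Work.MP_6f77e1_co.Chk
import Pool.Agent.Work.MP_6f77e1_co.ChkA
import Pool.Agent.Work.MP_6f77e1_co.ChkB

set_option autoImplicit false

namespace Pool.Agent.Work.MP_6f77e1_co

/-- the two expanding functionals -/
def phi1 (a : ℕ) : ℤ := ([1, 0, -1, -2, 2, 0] : List ℤ).getD a 0
def phi2 (a : ℕ) : ℤ := ([1, -2, -1, 0, 0, 2] : List ℤ).getD a 0

theorem tab_spec (k : ℕ) (h : inTab k = true) : chkDig k = true ∧ chkKey k = true := by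
  rw [inTab, Bool.and_eq_true, Bool.or_eq_true] at h
  obtain ⟨h0, h⟩ := h
  have h0' : 511 < k := Nat.blt_eq.mp h0
  have hk0 : Nat.beq k 0 = false := by
    rw [← Bool.not_eq_true, Nat.beq_eq]; omega
  rcases h with h | h
  · have e := Nat.eq_of_beq_eq_true h
    have hc := allB_spec chkA 14 0 chkA_true (Nat.mod k 11003) (Nat.zero_le _) (by
      have : Nat.mod k 11003 < 11003 := Nat.mod_lt _ (by norm_num)
      omega)
    rw [chkA, force_eq, e, hk0, Bool.false_or, Bool.and_eq_true] at hc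
    exact hc
  · have e := Nat.eq_of_beq_eq_true h
    have hc := allB_spec chkB 14 0 chkB_true (Nat.mod k 11027) (Nat.zero_le _) (by
      have : Nat.mod k 11027 < 11027 := Nat.mod_lt _ (by norm_num)
      omega)
    rw [chkB, force_eq, e, hk0, Bool.false_or, Bool.and_eq_true] at hc
    exact hc

/-- the code `k` represents the triple of positions -/
structure Rep (k b0 b1 b2 : ℕ) : Prop where
  key : (k : ℤ) = X b0 + 8 * X b1 + 64 * X b2 + 512 * ((dv 0 b0 b1 b2 + 16) +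
    (dv 1 b0 b1 b2 + 16) * 128 + (dv 2 b0 b1 b2 + 16) * 16384 +
    (dv 3 b0 b1 b2 + 16) * 2097152 + (dv 4 b0 b1 b2 + 16) * 268435456 +
    (dv 5 b0 b1 b2 + 16) * 34359738368)
  bd : ∀ c < 6, -8 ≤ dv c b0 b1 b2 ∧ dv c b0 b1 b2 ≤ 8
  tab : inTab k = true

structure InW (b0 b1 b2 : ℕ) : Prop where
  e1 : -1 ≤ (b2 : ℤ) - 2 * b1 + b0
  e2 : (b2 : ℤ) - 2 * b1 + b0 ≤ 1
  a1 : -10 ≤ DD phi1 b0 b1 b2
  a2 : DD phi1 b0 b1 b2 ≤ 10
  a3 : -12 ≤ DD phi2 b0 b1 b2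
  a4 : DD phi2 b0 b1 b2 ≤ 12
  a5 : -32 ≤ 3 * DD phi1 b0 b1 b2 + DD phi2 b0 b1 b2
  a6 : 3 * DD phi1 b0 b1 b2 + DD phi2 b0 b1 b2 ≤ 32
  a7 : -16 ≤ DD phi1 b0 b1 b2 - DD phi2 b0 b1 b2
  a8 : DD phi1 b0 b1 b2 - DD phi2 b0 b1 b2 ≤ 16

/-- one step of decoding -/
theorem digit_step (D : ℕ) (x Y : ℤ) (h : (D : ℤ) = x + 128 * Y) (hx : -40 ≤ x ∧ x ≤ 72)
    (hd : 8 ≤ D % 128 ∧ D % 128 ≤ 24) :
    ((D % 128 : ℕ) : ℤ) = x ∧ ((D / 128 : ℕ) : ℤ) = Y := by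
  obtain ⟨h1, h2⟩ := hx
  obtain ⟨h3, h4⟩ := hd
  have h5 : ((D % 128 : ℕ) : ℤ) = x := by omega
  exact ⟨h5, by omega⟩

theorem digit_last (D : ℕ) (a : ℕ) (Y : ℤ) (h : (D : ℤ) = a + 8 * Y) (ha : a < 8) :
    D % 8 = a ∧ ((D / 8 : ℕ) : ℤ) = Y := by
  have h5 : D % 8 = a := by omega
  exact ⟨h5, by omega⟩

/-- decoding: if digits are close to the table digits, then they agree -/
theorem decode (k : ℕ) (a0 a1 a2 : ℕ) (x0 x1 x2 x3 x4 x5 : ℤ) (h0 : a0 < 8) (h1 : a1 < 8)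
    (h2 : a2 < 8) (hd : chkDig k = true)
    (hk : (k : ℤ) = a0 + 8 * a1 + 64 * a2 + 512 * (x0 + x1 * 128 + x2 * 16384 + x3 * 2097152 +
      x4 * 268435456 + x5 * 34359738368))
    (b0 : -40 ≤ x0 ∧ x0 ≤ 72) (b1 : -40 ≤ x1 ∧ x1 ≤ 72) (b2 : -40 ≤ x2 ∧ x2 ≤ 72)
    (b3 : -40 ≤ x3 ∧ x3 ≤ 72) (b4 : -40 ≤ x4 ∧ x4 ≤ 72) :
    (8 ≤ x0 ∧ x0 ≤ 24) ∧ (8 ≤ x1 ∧ x1 ≤ 24) ∧ (8 ≤ x2 ∧ x2 ≤ 24) ∧ (8 ≤ x3 ∧ x3 ≤ 24) ∧
      (8 ≤ x4 ∧ x4 ≤ 24) ∧ (8 ≤ x5 ∧ x5 ≤ 24) ∧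
      k % 8 = a0 ∧ k / 8 % 8 = a1 ∧ k / 64 % 8 = a2 ∧
      ((k / 512 % 128 : ℕ) : ℤ) = x0 ∧ ((k / 512 / 128 % 128 : ℕ) : ℤ) = x1 ∧
      ((k / 512 / 16384 % 128 : ℕ) : ℤ) = x2 ∧ ((k / 512 / 2097152 % 128 : ℕ) : ℤ) = x3 ∧
      ((k / 512 / 268435456 % 128 : ℕ) : ℤ) = x4 ∧
      ((k / 512 / 34359738368 : ℕ) : ℤ) = x5 := by
  rw [chkDig, force_eq] at hd
  simp only [dig, Bool.and_eq_true, Nat.ble_eq] at hd
  obtain ⟨⟨⟨⟨⟨d0, d1⟩, d2⟩, d3⟩, d4⟩, d5⟩ := hd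
  have r : ∀ m n : ℕ, Nat.mod m n = m % n := fun _ _ => rfl
  have t : ∀ m n : ℕ, Nat.div m n = m / n := fun _ _ => rfl
  rw [r, t] at d0
  rw [r, t, t] at d1 d2 d3 d4
  rw [t, t] at d5
  have l1 : k / 64 = k / 8 / 8 := by rw [Nat.div_div_eq_div_mul]
  have l2 : k / 512 = k / 8 / 8 / 8 := by rw [Nat.div_div_eq_div_mul, Nat.div_div_eq_div_mul]
  rw [l2] at d0 d1 d2 d3 d4 d5 ⊢
  rw [l1]
  obtain ⟨m0, n0⟩ := digit_last k a0 (a1 + 8 * (a2 + 8 * (x0 + x1 * 128 + x2 * 16384 +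
    x3 * 2097152 + x4 * 268435456 + x5 * 34359738368))) (by rw [hk]; ring) h0
  obtain ⟨m1, n1⟩ := digit_last (k / 8) a1 _ n0 h1
  obtain ⟨m2, n2⟩ := digit_last (k / 8 / 8) a2 _ n1 h2
  generalize k / 8 / 8 / 8 = D at *
  have t2 : D / 16384 = D / 128 / 128 := by rw [Nat.div_div_eq_div_mul]
  have t3 : D / 2097152 = D / 128 / 128 / 128 := by
    rw [Nat.div_div_eq_div_mul, Nat.div_div_eq_div_mul]
  have t4 : D / 268435456 = D / 128 / 128 / 128 / 128 := by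
    rw [Nat.div_div_eq_div_mul, Nat.div_div_eq_div_mul, Nat.div_div_eq_div_mul]
  have t5 : D / 34359738368 = D / 128 / 128 / 128 / 128 / 128 := by
    rw [Nat.div_div_eq_div_mul, Nat.div_div_eq_div_mul, Nat.div_div_eq_div_mul,
      Nat.div_div_eq_div_mul]
  rw [t2] at d2 ⊢
  rw [t3] at d3 ⊢
  rw [t4] at d4 ⊢
  rw [t5] at d5 ⊢
  obtain ⟨y0, w0⟩ := digit_step D x0 (x1 + 128 * (x2 + 128 * (x3 + 128 * (x4 + 128 * x5))))
    (by rw [n2]; ring) b0 d0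
  obtain ⟨y1, w1⟩ := digit_step (D / 128) x1 _ w0 b1 d1
  obtain ⟨y2, w2⟩ := digit_step (D / 128 / 128) x2 _ w1 b2 d2
  obtain ⟨y3, w3⟩ := digit_step (D / 128 / 128 / 128) x3 _ w2 b3 d3
  obtain ⟨y4, w4⟩ := digit_step (D / 128 / 128 / 128 / 128) x4 _ w3 b4 d4
  refine ⟨?_, ?_, ?_, ?_, ?_, ?_, m0, m1, m2, y0, y1, y2, y3, y4, w4⟩
  · rw [← y0]; exact ⟨by exact_mod_cast d0.1, by exact_mod_cast d0.2⟩
  · rw [← y1]; exact ⟨by exact_mod_cast d1.1, by exact_mod_cast d1.2⟩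
  · rw [← y2]; exact ⟨by exact_mod_cast d2.1, by exact_mod_cast d2.2⟩
  · rw [← y3]; exact ⟨by exact_mod_cast d3.1, by exact_mod_cast d3.2⟩
  · rw [← y4]; exact ⟨by exact_mod_cast d4.1, by exact_mod_cast d4.2⟩
  · rw [← w4]; exact ⟨by exact_mod_cast d5.1, by exact_mod_cast d5.2⟩


theorem allR_spec (f : ℕ → ℕ → ℕ → Bool) (h : allR f = true) (r0 r1 r2 : ℕ) (h0 : r0 < 3)
    (h1 : r1 < 3) (h2 : r2 < 3) : f r0 r1 r2 = true := by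
  simp only [allR, Bool.and_eq_true] at h
  interval_cases r0 <;> interval_cases r1 <;> interval_cases r2 <;> tauto

theorem DD_lin (f g : ℕ → ℤ) (hfg : ∀ a < 6, f a = g a) (b0 b1 b2 : ℕ) :
    DD f b0 b1 b2 = DD g b0 b1 b2 := by
  rw [DD, DD, Psi_lin f g b0 hfg, Psi_lin f g b1 hfg, Psi_lin f g b2 hfg]

theorem MT_phi1 (b0 b1 b2 : ℕ) :
    2 * DD (MT phi1) b0 b1 b2 = 3 * DD phi1 b0 b1 b2 + DD phi2 b0 b1 b2 := by
  rw [DD_expand (MT phi1), DD_expand phi1, DD_expand phi2]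
  simp only [MT, h, hTab, phi1, phi2, List.getD_cons_zero, List.getD_cons_succ]
  ring

theorem MT_phi2 (b0 b1 b2 : ℕ) :
    2 * DD (MT phi2) b0 b1 b2 = 3 * DD phi1 b0 b1 b2 - 3 * DD phi2 b0 b1 b2 := by
  rw [DD_expand (MT phi2), DD_expand phi1, DD_expand phi2]
  simp only [MT, h, hTab, phi1, phi2, List.getD_cons_zero, List.getD_cons_succ]
  ring

theorem MT_ind (c : ℕ) (hc : c < 6) (b0 b1 b2 : ℕ) : DD (MT (ind c)) b0 b1 b2 =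
    (([dv 0 b0 b1 b2 + dv 1 b0 b1 b2 + dv 4 b0 b1 b2,
       dv 2 b0 b1 b2 + dv 3 b0 b1 b2 + dv 5 b0 b1 b2,
       dv 0 b0 b1 b2 + dv 3 b0 b1 b2 + dv 5 b0 b1 b2,
       dv 1 b0 b1 b2 + dv 2 b0 b1 b2 + dv 3 b0 b1 b2,
       dv 0 b0 b1 b2 + dv 4 b0 b1 b2 + dv 5 b0 b1 b2,
       dv 1 b0 b1 b2 + dv 2 b0 b1 b2 + dv 4 b0 b1 b2] : List ℤ).getD c 0) := by
  rw [DD_expand]
  interval_cases c <;>
    simp [MT, h, hTab, ind]

/-- prefix data -/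
theorem f1_eq : ∀ a < 6, ∀ r < 3, (f1 a r : ℤ) = 10 + pp phi1 a r := by decide +kernel

theorem f2_eq : ∀ a < 6, ∀ r < 3, (f2 a r : ℤ) = 10 + pp phi2 a r := by decide +kernel

theorem pr_eq : ∀ a < 6, ∀ r < 3, (pr a r : ℤ) =
    pp (ind 0) a r + pp (ind 1) a r * 128 + pp (ind 2) a r * 16384 +
      pp (ind 3) a r * 2097152 + pp (ind 4) a r * 268435456 +
      pp (ind 5) a r * 34359738368 := by decide +kernel

theorem pp_bd : ∀ c < 6, ∀ a < 6, ∀ r < 3,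
    0 ≤ pp (ind c) a r ∧ pp (ind c) a r ≤ 1 := by decide +kernel

theorem pt_bd : ∀ a < 6, ∀ r < 3,
    (pp phi1 a r = 0 ∧ pp phi2 a r = 0) ∨ (pp phi1 a r = 1 ∧ pp phi2 a r = 1) ∨
    (pp phi1 a r = -1 ∧ pp phi2 a r = 1) ∨ (pp phi1 a r = 0 ∧ pp phi2 a r = -2) ∨
    (pp phi1 a r = -2 ∧ pp phi2 a r = -2) ∨ (pp phi1 a r = 1 ∧ pp phi2 a r = 3) ∨
    (pp phi1 a r = -1 ∧ pp phi2 a r = -3) := by decide +kernel

/-- the region is closed under passing to the parent triple -/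
theorem InW_parent {b0 b1 b2 r0 r1 r2 : ℕ} (h0 : r0 < 3) (h1 : r1 < 3) (h2 : r2 < 3)
    (h : InW (3 * b0 + r0) (3 * b1 + r1) (3 * b2 + r2)) : InW b0 b1 b2 := by
  obtain ⟨e1, e2, a1, a2, a3, a4, a5, a6, a7, a8⟩ := h
  rw [DD_child _ _ _ _ _ _ _ h0 h1 h2] at a1 a2 a3 a4 a5 a6 a7 a8
  rw [DD_child _ _ _ _ _ _ _ h0 h1 h2] at a5 a6 a7 a8
  have m1 := MT_phi1 b0 b1 b2
  have m2 := MT_phi2 b0 b1 b2
  have p0 := pt_bd (X b0) (X_lt b0) r0 h0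
  have p1 := pt_bd (X b1) (X_lt b1) r1 h1
  have p2 := pt_bd (X b2) (X_lt b2) r2 h2
  push_cast at e1 e2
  generalize pp phi1 (X b0) r0 = u0 at *
  generalize pp phi2 (X b0) r0 = v0 at *
  generalize pp phi1 (X b1) r1 = u1 at *
  generalize pp phi2 (X b1) r1 = v1 at *
  generalize pp phi1 (X b2) r2 = u2 at *
  generalize pp phi2 (X b2) r2 = v2 at *
  have q1 : -6 ≤ u2 - 2 * u1 + u0 ∧ u2 - 2 * u1 + u0 ≤ 6 := by omega
  have q2 : -12 ≤ v2 - 2 * v1 + v0 ∧ v2 - 2 * v1 + v0 ≤ 12 := by omega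
  have q3 : -28 ≤ 3 * (u2 - 2 * u1 + u0) + (v2 - 2 * v1 + v0) ∧
      3 * (u2 - 2 * u1 + u0) + (v2 - 2 * v1 + v0) ≤ 28 := by omega
  have q4 : -8 ≤ (u2 - 2 * u1 + u0) - (v2 - 2 * v1 + v0) ∧
      (u2 - 2 * u1 + u0) - (v2 - 2 * v1 + v0) ≤ 8 := by omega
  clear p0 p1 p2
  refine ⟨?_, ?_, ?_, ?_, ?_, ?_, ?_, ?_, ?_, ?_⟩ <;> omega


theorem sum_dv (b0 b1 b2 : ℕ) : dv 0 b0 b1 b2 + dv 1 b0 b1 b2 + dv 2 b0 b1 b2 +
    dv 3 b0 b1 b2 + dv 4 b0 b1 b2 + dv 5 b0 b1 b2 = (b2 : ℤ) - 2 * b1 + b0 := by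
  have h := DD_expand (fun _ => 1) b0 b1 b2
  rw [DD_one] at h
  linarith

theorem phi1_dv (b0 b1 b2 : ℕ) : DD phi1 b0 b1 b2 = dv 0 b0 b1 b2 - dv 2 b0 b1 b2 -
    2 * dv 3 b0 b1 b2 + 2 * dv 4 b0 b1 b2 := by
  rw [DD_expand]
  simp only [phi1, List.getD_cons_zero, List.getD_cons_succ]
  ring

theorem phi2_dv (b0 b1 b2 : ℕ) : DD phi2 b0 b1 b2 = dv 0 b0 b1 b2 - 2 * dv 1 b0 b1 b2 -
    dv 2 b0 b1 b2 + 2 * dv 5 b0 b1 b2 := by
  rw [DD_expand]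
  simp only [phi2, List.getD_cons_zero, List.getD_cons_succ]
  ring

theorem Rep.decode {k b0 b1 b2 : ℕ} (h : Rep k b0 b1 b2) :
    k % 8 = X b0 ∧ k / 8 % 8 = X b1 ∧ k / 64 % 8 = X b2 ∧
      ((k / 512 % 128 : ℕ) : ℤ) = dv 0 b0 b1 b2 + 16 ∧
      ((k / 512 / 128 % 128 : ℕ) : ℤ) = dv 1 b0 b1 b2 + 16 ∧
      ((k / 512 / 16384 % 128 : ℕ) : ℤ) = dv 2 b0 b1 b2 + 16 ∧
      ((k / 512 / 2097152 % 128 : ℕ) : ℤ) = dv 3 b0 b1 b2 + 16 ∧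
      ((k / 512 / 268435456 % 128 : ℕ) : ℤ) = dv 4 b0 b1 b2 + 16 ∧
      ((k / 512 / 34359738368 : ℕ) : ℤ) = dv 5 b0 b1 b2 + 16 := by
  have d := MP_6f77e1_co.decode k (X b0) (X b1) (X b2) _ _ _ _ _ _
    (lt_trans (X_lt b0) (by norm_num)) (lt_trans (X_lt b1) (by norm_num))
    (lt_trans (X_lt b2) (by norm_num)) (tab_spec k h.tab).1 h.key
    (by have := h.bd 0 (by norm_num); omega) (by have := h.bd 1 (by norm_num); omega)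
    (by have := h.bd 2 (by norm_num); omega) (by have := h.bd 3 (by norm_num); omega)
    (by have := h.bd 4 (by norm_num); omega)
  exact d.2.2.2.2.2.2


theorem region_false (w1 w2 F10 F11 F12 F20 F21 F22 : ℕ) (m1 m2 p10 p11 p12 p20 p21 p22 Z1 Z2 : ℤ)
    (hw1 : (w1 : ℤ) = 1000 + 2 * m1) (hw2 : (w2 : ℤ) = 1000 + 2 * m2)
    (g10 : (F10 : ℤ) = 10 + p10) (g11 : (F11 : ℤ) = 10 + p11) (g12 : (F12 : ℤ) = 10 + p12)
    (g20 : (F20 : ℤ) = 10 + p20) (g21 : (F21 : ℤ) = 10 + p21) (g22 : (F22 : ℤ) = 10 + p22)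
    (hZ1 : Z1 = m1 + (p12 - 2 * p11 + p10)) (hZ2 : Z2 = m2 + (p22 - 2 * p21 + p20))
    (a1 : -10 ≤ Z1) (a2 : Z1 ≤ 10) (a3 : -12 ≤ Z2) (a4 : Z2 ≤ 12) (a5 : -32 ≤ 3 * Z1 + Z2)
    (a6 : 3 * Z1 + Z2 ≤ 32) (a7 : -16 ≤ Z1 - Z2) (a8 : Z1 - Z2 ≤ 16)
    (hc : (Nat.blt (Nat.add (Nat.add 1000 (Nat.mul 4 F11)) 20)
        (Nat.add w1 (Nat.mul 2 (Nat.add F12 F10))) ||
      Nat.blt (Nat.add (Nat.add w1 (Nat.mul 2 (Nat.add F12 F10))) 20)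
        (Nat.add 1000 (Nat.mul 4 F11)) ||
      (Nat.blt (Nat.add (Nat.add 1000 (Nat.mul 4 F21)) 24)
        (Nat.add w2 (Nat.mul 2 (Nat.add F22 F20))) ||
      Nat.blt (Nat.add (Nat.add w2 (Nat.mul 2 (Nat.add F22 F20))) 24)
        (Nat.add 1000 (Nat.mul 4 F21)) ||
      Nat.blt (Nat.add (Nat.add (Nat.add 1000 (Nat.mul 4 F11))
        (Nat.add w2 (Nat.mul 2 (Nat.add F22 F20)))) 32)
        (Nat.add (Nat.add w1 (Nat.mul 2 (Nat.add F12 F10))) (Nat.add 1000 (Nat.mul 4 F21))) ||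
      Nat.blt (Nat.add (Nat.add (Nat.add w1 (Nat.mul 2 (Nat.add F12 F10)))
        (Nat.add 1000 (Nat.mul 4 F21))) 32)
        (Nat.add (Nat.add 1000 (Nat.mul 4 F11)) (Nat.add w2 (Nat.mul 2 (Nat.add F22 F20)))) ||
      Nat.blt (Nat.add (Nat.add (Nat.mul 3 (Nat.add 1000 (Nat.mul 4 F11)))
        (Nat.add 1000 (Nat.mul 4 F21))) 64)
        (Nat.add (Nat.mul 3 (Nat.add w1 (Nat.mul 2 (Nat.add F12 F10))))
          (Nat.add w2 (Nat.mul 2 (Nat.add F22 F20)))) ||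
      Nat.blt (Nat.add (Nat.add (Nat.mul 3 (Nat.add w1 (Nat.mul 2 (Nat.add F12 F10))))
        (Nat.add w2 (Nat.mul 2 (Nat.add F22 F20)))) 64)
        (Nat.add (Nat.mul 3 (Nat.add 1000 (Nat.mul 4 F11)))
          (Nat.add 1000 (Nat.mul 4 F21))))) = true) : False := by
  simp only [Bool.or_eq_true, Nat.blt_eq, Nat.add_eq, Nat.mul_eq] at hc
  have e1 : (w1 : ℤ) + 2 * ((F12 : ℤ) + F10) - (1000 + 4 * F11) = 2 * Z1 := by
    rw [hw1, g10, g11, g12, hZ1]; ring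
  have e2 : (w2 : ℤ) + 2 * ((F22 : ℤ) + F20) - (1000 + 4 * F21) = 2 * Z2 := by
    rw [hw2, g20, g21, g22, hZ2]; ring
  clear hw1 hw2 g10 g11 g12 g20 g21 g22 hZ1 hZ2
  omega

theorem child_rep {k b0 b1 b2 r0 r1 r2 : ℕ} (h0 : r0 < 3) (h1 : r1 < 3) (h2 : r2 < 3)
    (hk : Rep k b0 b1 b2) (hW : InW (3 * b0 + r0) (3 * b1 + r1) (3 * b2 + r2)) :
    ∃ k', Rep k' (3 * b0 + r0) (3 * b1 + r1) (3 * b2 + r2) := by
  obtain ⟨q0, q1, q2, y0, y1, y2, y3, y4, y5⟩ := hk.decode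
  have hc := (tab_spec k hk.tab).2
  have bd := hk.bd
  have B0 := bd 0 (by norm_num)
  have B1 := bd 1 (by norm_num)
  have B2 := bd 2 (by norm_num)
  have B3 := bd 3 (by norm_num)
  have B4 := bd 4 (by norm_num)
  have B5 := bd 5 (by norm_num)
  simp only [chkKey, force_eq] at hc
  have hc' := allR_spec _ hc r0 r1 r2 h0 h1 h2
  clear hc bd
  have ea0 : Nat.mod k 8 = X b0 := q0
  have ea1 : Nat.mod (Nat.div k 8) 8 = X b1 := q1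
  have ea2 : Nat.mod (Nat.div k 64) 8 = X b2 := q2
  have t : ∀ m n : ℕ, Nat.div m n = m / n := fun _ _ => rfl
  have r : ∀ m n : ℕ, Nat.mod m n = m % n := fun _ _ => rfl
  have e5 : Nat.mod (Nat.div (Nat.div k 512) 34359738368) 128 = k / 512 / 34359738368 := by
    rw [t, t, r]
    exact Nat.mod_eq_of_lt (by omega)
  rw [ea0, ea1, ea2, e5] at hc'
  clear ea0 ea1 ea2 e5 q0 q1 q2
  simp only [r, t] at hc'
  generalize k / 512 % 128 = x0 at *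
  generalize k / 512 / 128 % 128 = x1 at *
  generalize k / 512 / 16384 % 128 = x2 at *
  generalize k / 512 / 2097152 % 128 = x3 at *
  generalize k / 512 / 268435456 % 128 = x4 at *
  generalize k / 512 / 34359738368 = x5 at *
  obtain ⟨E1, E2, A1, A2, A3, A4, A5, A6, A7, A8⟩ := hW
  have hs := sum_dv b0 b1 b2
  push_cast at E1 E2
  have P1 := DD_child phi1 b0 b1 b2 r0 r1 r2 h0 h1 h2
  have P2 := DD_child phi2 b0 b1 b2 r0 r1 r2 h0 h1 h2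
  have M1 := MT_phi1 b0 b1 b2
  have M2 := MT_phi2 b0 b1 b2
  rw [phi1_dv b0 b1 b2, phi2_dv b0 b1 b2] at M1 M2
  have g10 := f1_eq (X b0) (X_lt b0) r0 h0
  have g11 := f1_eq (X b1) (X_lt b1) r1 h1
  have g12 := f1_eq (X b2) (X_lt b2) r2 h2
  have g20 := f2_eq (X b0) (X_lt b0) r0 h0
  have g21 := f2_eq (X b1) (X_lt b1) r1 h1
  have g22 := f2_eq (X b2) (X_lt b2) r2 h2
  rw [chkChild, Bool.or_eq_true, Bool.or_eq_true, Bool.or_eq_true] at hc'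
  rcases hc' with ((hc' | hc') | hc') | hc'
  · exfalso
    simp only [Nat.blt_eq, Nat.add_eq, Nat.mul_eq] at hc'
    omega
  · exfalso
    simp only [Nat.blt_eq, Nat.add_eq, Nat.mul_eq] at hc'
    omega
  · -- the child is in the table
    clear P1 P2 M1 M2 g10 g11 g12 g20 g21 g22 A1 A2 A3 A4 A5 A6 A7 A8 E1 E2 hs
    rw [force_eq] at hc'
    simp only [Nat.add_eq, Nat.mul_eq, Nat.sub_eq] at hc'
    set D := x0 * 268451841 + (x1 * 34361835521 + (x2 * 34361835648 + (x3 * 2113664 +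
        (x4 * 34628173825 + x5 * 268451968)))) + (pr (X b2) r2 + pr (X b0) r0) -
        (2 * pr (X b1) r1 + 1108169199648) with hD
    have hDpos : 1 ≤ D := by
      have hdig := (tab_spec _ hc').1
      rw [chkDig, force_eq] at hdig
      simp only [dig, Bool.and_eq_true, Nat.ble_eq] at hdig
      obtain ⟨⟨⟨⟨⟨d0, d1⟩, d2⟩, d3⟩, d4⟩, d5⟩ := hdig
      rw [t, t] at d5
      have u0 := h_lt (X b0) (X_lt b0) r0 h0
      have u1 := h_lt (X b1) (X_lt b1) r1 h1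
      have u2 := h_lt (X b2) (X_lt b2) r2 h2
      clear d0 d1 d2 d3 d4 y0 y1 y2 y3 y4 y5 B0 B1 B2 B3 B4 B5 hc'
      clear_value D
      omega
    have hDz : (D : ℤ) = x0 * 268451841 + (x1 * 34361835521 + (x2 * 34361835648 + (x3 * 2113664 +
        (x4 * 34628173825 + x5 * 268451968)))) + (pr (X b2) r2 + pr (X b0) r0) -
        (2 * pr (X b1) r1 + 1108169199648) := by
      omega
    clear_value D
    clear hD
    have p0 := pr_eq (X b0) (X_lt b0) r0 h0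
    have p1 := pr_eq (X b1) (X_lt b1) r1 h1
    have p2 := pr_eq (X b2) (X_lt b2) r2 h2
    have c0 := DD_child (ind 0) b0 b1 b2 r0 r1 r2 h0 h1 h2
    have c1 := DD_child (ind 1) b0 b1 b2 r0 r1 r2 h0 h1 h2
    have c2 := DD_child (ind 2) b0 b1 b2 r0 r1 r2 h0 h1 h2
    have c3 := DD_child (ind 3) b0 b1 b2 r0 r1 r2 h0 h1 h2
    have c4 := DD_child (ind 4) b0 b1 b2 r0 r1 r2 h0 h1 h2
    have c5 := DD_child (ind 5) b0 b1 b2 r0 r1 r2 h0 h1 h2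
    rw [MT_ind 0 (by norm_num)] at c0
    rw [MT_ind 1 (by norm_num)] at c1
    rw [MT_ind 2 (by norm_num)] at c2
    rw [MT_ind 3 (by norm_num)] at c3
    rw [MT_ind 4 (by norm_num)] at c4
    rw [MT_ind 5 (by norm_num)] at c5
    simp only [List.getD_cons_zero, List.getD_cons_succ] at c0 c1 c2 c3 c4 c5
    have key : ((h (X b0) r0 + (8 * h (X b1) r1 + (64 * h (X b2) r2 + 512 * D)) : ℕ) : ℤ) =
        X (3 * b0 + r0) + 8 * X (3 * b1 + r1) + 64 * X (3 * b2 + r2) + 512 *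
        ((dv 0 (3 * b0 + r0) (3 * b1 + r1) (3 * b2 + r2) + 16) +
        (dv 1 (3 * b0 + r0) (3 * b1 + r1) (3 * b2 + r2) + 16) * 128 +
        (dv 2 (3 * b0 + r0) (3 * b1 + r1) (3 * b2 + r2) + 16) * 16384 +
        (dv 3 (3 * b0 + r0) (3 * b1 + r1) (3 * b2 + r2) + 16) * 2097152 +
        (dv 4 (3 * b0 + r0) (3 * b1 + r1) (3 * b2 + r2) + 16) * 268435456 +
        (dv 5 (3 * b0 + r0) (3 * b1 + r1) (3 * b2 + r2) + 16) * 34359738368) := by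
      rw [X_mul b0 r0 h0, X_mul b1 r1 h1, X_mul b2 r2 h2]
      push_cast
      rw [hDz, p0, p1, p2, y0, y1, y2, y3, y4, y5]
      simp only [dv] at c0 c1 c2 c3 c4 c5 ⊢
      rw [c0, c1, c2, c3, c4, c5]
      ring
    refine ⟨_, key, ?_, hc'⟩
    have q00 := pp_bd 0 (by norm_num) (X b0) (X_lt b0) r0 h0
    have q01 := pp_bd 0 (by norm_num) (X b1) (X_lt b1) r1 h1
    have q02 := pp_bd 0 (by norm_num) (X b2) (X_lt b2) r2 h2
    have q10 := pp_bd 1 (by norm_num) (X b0) (X_lt b0) r0 h0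
    have q11 := pp_bd 1 (by norm_num) (X b1) (X_lt b1) r1 h1
    have q12 := pp_bd 1 (by norm_num) (X b2) (X_lt b2) r2 h2
    have q20 := pp_bd 2 (by norm_num) (X b0) (X_lt b0) r0 h0
    have q21 := pp_bd 2 (by norm_num) (X b1) (X_lt b1) r1 h1
    have q22 := pp_bd 2 (by norm_num) (X b2) (X_lt b2) r2 h2
    have q30 := pp_bd 3 (by norm_num) (X b0) (X_lt b0) r0 h0
    have q31 := pp_bd 3 (by norm_num) (X b1) (X_lt b1) r1 h1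
    have q32 := pp_bd 3 (by norm_num) (X b2) (X_lt b2) r2 h2
    have q40 := pp_bd 4 (by norm_num) (X b0) (X_lt b0) r0 h0
    have q41 := pp_bd 4 (by norm_num) (X b1) (X_lt b1) r1 h1
    have q42 := pp_bd 4 (by norm_num) (X b2) (X_lt b2) r2 h2
    have d := MP_6f77e1_co.decode _ (X (3 * b0 + r0)) (X (3 * b1 + r1)) (X (3 * b2 + r2))
      _ _ _ _ _ _ (lt_trans (X_lt _) (by norm_num)) (lt_trans (X_lt _) (by norm_num))
      (lt_trans (X_lt _) (by norm_num)) (tab_spec _ hc').1 key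
      (by rw [dv]; omega) (by rw [dv]; omega) (by rw [dv]; omega) (by rw [dv]; omega)
      (by rw [dv]; omega)
    obtain ⟨z0, z1, z2, z3, z4, z5, -⟩ := d
    intro c hc
    clear c0 c1 c2 c3 c4 c5 q00 q01 q02 q10 q11 q12 q20 q21 q22 q30 q31 q32 q40 q41 q42 key
    clear p0 p1 p2 hDz hDpos y0 y1 y2 y3 y4 y5 B0 B1 B2 B3 B4 B5
    interval_cases c <;> omega
  · exfalso
    simp only [force_eq] at hc'
    refine region_false _ _ _ _ _ _ _ _ (DD (MT phi1) b0 b1 b2) (DD (MT phi2) b0 b1 b2)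
      _ _ _ _ _ _ _ _ ?_ ?_ g10 g11 g12 g20 g21 g22 P1 P2 A1 A2 A3 A4 A5 A6 A7 A8 hc'
    · simp only [Nat.add_eq, Nat.mul_eq, Nat.sub_eq]
      rw [M1]
      clear hc' P1 P2 M2 A1 A2 A3 A4 A5 A6 A7 A8 g10 g11 g12 g20 g21 g22
      omega
    · simp only [Nat.add_eq, Nat.mul_eq, Nat.sub_eq]
      rw [M2]
      clear hc' P1 P2 M1 A1 A2 A3 A4 A5 A6 A7 A8 g10 g11 g12 g20 g21 g22
      omega

end Pool.Agent.Work.MP_6f77e1_co
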