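import Mathlib
import Pool.Agent.Work.MP_6f77e1_co.Closure

set_option autoImplicit false

namespace Pool.Agent.Work.MP_6f77e1_co

/-- codes `a + 8 b + 64 c` of the factors `abc` of length three -/
def F3L : List ℕ := [0 + 8 * 2 + 64 * 4, 0 + 8 * 3 + 64 * 5, 0 + 8 * 5 + 64 * 4,
  1 + 8 * 2 + 64 * 4, 1 + 8 * 3 + 64 * 2, 1 + 8 * 3 + 64 * 5, 2 + 8 * 1 + 64 * 2,
  2 + 8 * 1 + 64 * 3, 2 + 8 * 4 + 64 * 0, 2 + 8 * 4 + 64 * 1, 3 + 8 * 2 + 64 * 1,
  3 + 8 * 5 + 64 * 0, 3 + 8 * 5 + 64 * 1, 4 + 8 * 0 + 64 * 2, 4 + 8 * 0 + 64 * 3,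
  4 + 8 * 0 + 64 * 5, 4 + 8 * 1 + 64 * 2, 4 + 8 * 1 + 64 * 3, 5 + 8 * 0 + 64 * 3,
  5 + 8 * 0 + 64 * 5, 5 + 8 * 1 + 64 * 3, 5 + 8 * 4 + 64 * 0]

def inF3 (k : ℕ) : Bool := F3L.any (fun x => Nat.beq x k)

/-- letter number `j` of `h (a b c)` -/
def ltr (a b c j : ℕ) : ℕ := h (([a, b, c] : List ℕ).getD (j / 3) 0) (j % 3)

theorem F3_closed : ∀ a < 6, ∀ b < 6, ∀ c < 6, inF3 (a + 8 * b + 64 * c) = true →
    ∀ r < 3, inF3 (ltr a b c r + 8 * ltr a b c (r + 1) + 64 * ltr a b c (r + 2)) = true := by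
  decide +kernel

theorem ltr_eq (q r : ℕ) (hr : r < 9) :
    X (3 * q + r) = ltr (X q) (X (q + 1)) (X (q + 2)) r := by
  have e : 3 * q + r = 3 * (q + r / 3) + r % 3 := by omega
  have h3 : r / 3 < 3 := by omega
  rw [e, X_mul _ _ (Nat.mod_lt _ (by norm_num)), ltr]
  congr 1
  generalize r / 3 = s at h3
  interval_cases s
  · simp
  · simp
  · simp

theorem F3_mem (q : ℕ) : inF3 (X q + 8 * X (q + 1) + 64 * X (q + 2)) = true := by
  induction q using Nat.strong_induction_on with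
  | _ q ih =>
    rcases Nat.eq_zero_or_pos q with h0 | h0
    · subst h0
      have x0 : X 0 = 0 := by rw [X]
      have x1 : X 1 = 2 := by rw [X_eq]; norm_num; rw [x0]; decide
      have x2 : X 2 = 4 := by rw [X_eq]; norm_num; rw [x0]; decide
      rw [x0, zero_add, zero_add, x1, x2]
      decide
    · have hq : q / 3 < q := by omega
      have h1 := ih (q / 3) hq
      have e : q = 3 * (q / 3) + q % 3 := by omega
      have hm : q % 3 < 3 := Nat.mod_lt _ (by norm_num)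
      have e0 := ltr_eq (q / 3) (q % 3) (by omega)
      have e1 := ltr_eq (q / 3) (q % 3 + 1) (by omega)
      have e2 := ltr_eq (q / 3) (q % 3 + 2) (by omega)
      rw [show 3 * (q / 3) + q % 3 = q by omega] at e0
      rw [show 3 * (q / 3) + (q % 3 + 1) = q + 1 by omega] at e1
      rw [show 3 * (q / 3) + (q % 3 + 2) = q + 2 by omega] at e2
      rw [e0, e1, e2]
      exact F3_closed _ (X_lt _) _ (X_lt _) _ (X_lt _) h1 _ hm

/-- number of `j < n` with `u (x + j) = c` -/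
def cnt (u : ℕ → ℕ) (c x : ℕ) : ℕ → ℕ
  | 0 => 0
  | n + 1 => cnt u c x n + (if Nat.beq (u (x + n)) c then 1 else 0)

theorem cnt_le (u : ℕ → ℕ) (c x n : ℕ) : cnt u c x n ≤ n := by
  induction n with
  | zero => simp [cnt]
  | succ n ih => rw [cnt]; split_ifs <;> omega

theorem Psi_cnt (u : ℕ → ℕ) (c b x n : ℕ) (hu : ∀ j < n, X (b + x + j) = u (x + j)) :
    Psi (ind c) (b + x + n) = Psi (ind c) (b + x) + cnt u c x n := by
  induction n with
  | zero => simp [cnt]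
  | succ n ih =>
    rw [← add_assoc, Psi_succ, ih (fun j hj => hu j (by omega)), hu n (by omega), cnt, ind]
    by_cases hc : u (x + n) = c
    · simp [hc]; ring
    · have : Nat.beq (u (x + n)) c = false := by
        rw [← Bool.not_eq_true, Nat.beq_eq]; exact hc
      simp [hc, this]

/-- packed key of a short triple -/
def seedKey (u : ℕ → ℕ) (g1 g2 : ℕ) : ℕ :=
  u 0 + 8 * u g1 + 64 * u (g1 + g2) + 512 *
    ((cnt u 0 g1 g2 + 16 - cnt u 0 0 g1) + (cnt u 1 g1 g2 + 16 - cnt u 1 0 g1) * 128 +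
     (cnt u 2 g1 g2 + 16 - cnt u 2 0 g1) * 16384 + (cnt u 3 g1 g2 + 16 - cnt u 3 0 g1) * 2097152 +
     (cnt u 4 g1 g2 + 16 - cnt u 4 0 g1) * 268435456 +
     (cnt u 5 g1 g2 + 16 - cnt u 5 0 g1) * 34359738368)

def seedOK (a b c r : ℕ) : Bool :=
  ([(1, 1), (1, 2), (2, 1), (2, 2), (2, 3), (3, 2)] : List (ℕ × ℕ)).all (fun g =>
    inTab (seedKey (fun j => ltr a b c (r + j)) g.1 g.2))

theorem seeds_ok : ∀ a < 6, ∀ b < 6, ∀ c < 6, inF3 (a + 8 * b + 64 * c) = true →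
    ∀ r < 3, seedOK a b c r = true := by
  decide +kernel

theorem dv_cnt (u : ℕ → ℕ) (c b g1 g2 : ℕ) (hu : ∀ j < g1 + g2, X (b + j) = u j) :
    dv c b (b + g1) (b + g1 + g2) = cnt u c g1 g2 - cnt u c 0 g1 := by
  have h1 := Psi_cnt u c b 0 g1 (fun j hj => by simpa using hu j (by omega))
  have h2 := Psi_cnt u c b g1 g2 (fun j hj => by
    rw [add_assoc]; exact hu (g1 + j) (by omega))
  rw [add_zero] at h1
  rw [dv, DD, h2, h1]
  ring

theorem seed_rep (b g1 g2 : ℕ) (hg : (g1, g2) ∈ ([(1, 1), (1, 2), (2, 1), (2, 2), (2, 3), (3, 2)]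
    : List (ℕ × ℕ))) : ∃ k, Rep k b (b + g1) (b + g1 + g2) := by
  have hm : b % 3 < 3 := Nat.mod_lt _ (by norm_num)
  have h1 := seeds_ok _ (X_lt (b / 3)) _ (X_lt (b / 3 + 1)) _ (X_lt (b / 3 + 2)) (F3_mem (b / 3))
    (b % 3) hm
  rw [seedOK, List.all_eq_true] at h1
  have h2 := h1 (g1, g2) hg
  simp only at h2
  have hg12 : g1 + g2 ≤ 5 ∧ g1 ≤ 3 ∧ g2 ≤ 3 := by
    simp only [List.mem_cons, Prod.mk.injEq, List.mem_nil_iff, or_false] at hg
    omega
  set u : ℕ → ℕ := fun j => ltr (X (b / 3)) (X (b / 3 + 1)) (X (b / 3 + 2)) (b % 3 + j) with hu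
  have hX : ∀ j < 6, X (b + j) = u j := by
    intro j hj
    have e := ltr_eq (b / 3) (b % 3 + j) (by omega)
    rw [show 3 * (b / 3) + (b % 3 + j) = b + j by omega] at e
    exact e
  have hd : ∀ c, dv c b (b + g1) (b + g1 + g2) = cnt u c g1 g2 - cnt u c 0 g1 :=
    fun c => dv_cnt u c b g1 g2 (fun j hj => hX j (by omega))
  have l1 : ∀ c, cnt u c 0 g1 ≤ 3 := fun c => le_trans (cnt_le _ _ _ _) hg12.2.1
  have l2 : ∀ c, cnt u c g1 g2 ≤ 3 := fun c => le_trans (cnt_le _ _ _ _) hg12.2.2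
  refine ⟨seedKey u g1 g2, ?_, ?_, h2⟩
  · rw [hd, hd, hd, hd, hd, hd, seedKey]
    have x0 := hX 0 (by norm_num)
    rw [add_zero] at x0
    have x1 := hX g1 (by omega)
    have x2 := hX (g1 + g2) (by omega)
    rw [← add_assoc] at x2
    rw [x0, x1, x2]
    have a0 := l1 0
    have a1 := l1 1
    have a2 := l1 2
    have a3 := l1 3
    have a4 := l1 4
    have a5 := l1 5
    push_cast [Nat.cast_sub (show cnt u 0 0 g1 ≤ cnt u 0 g1 g2 + 16 by omega),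
      Nat.cast_sub (show cnt u 1 0 g1 ≤ cnt u 1 g1 g2 + 16 by omega),
      Nat.cast_sub (show cnt u 2 0 g1 ≤ cnt u 2 g1 g2 + 16 by omega),
      Nat.cast_sub (show cnt u 3 0 g1 ≤ cnt u 3 g1 g2 + 16 by omega),
      Nat.cast_sub (show cnt u 4 0 g1 ≤ cnt u 4 g1 g2 + 16 by omega),
      Nat.cast_sub (show cnt u 5 0 g1 ≤ cnt u 5 g1 g2 + 16 by omega)]
    ring
  · intro c _
    rw [hd]
    have := l1 c
    have := l2 c
    constructor <;> omega

theorem all_rep (b2 : ℕ) : ∀ b0 b1 : ℕ, b0 < b1 → b1 < b2 → InW b0 b1 b2 →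
    ∃ k, Rep k b0 b1 b2 := by
  induction b2 using Nat.strong_induction_on with
  | _ b2 ih =>
    intro b0 b1 h01 h12 hW
    have e0 : 3 * (b0 / 3) + b0 % 3 = b0 := by omega
    have e1 : 3 * (b1 / 3) + b1 % 3 = b1 := by omega
    have e2 : 3 * (b2 / 3) + b2 % 3 = b2 := by omega
    have m0 : b0 % 3 < 3 := Nat.mod_lt _ (by norm_num)
    have m1 : b1 % 3 < 3 := Nat.mod_lt _ (by norm_num)
    have m2 : b2 % 3 < 3 := Nat.mod_lt _ (by norm_num)
    by_cases hs : b0 / 3 < b1 / 3 ∧ b1 / 3 < b2 / 3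
    · have hWp : InW (b0 / 3) (b1 / 3) (b2 / 3) := by
        apply InW_parent m0 m1 m2
        rw [e0, e1, e2]
        exact hW
      obtain ⟨k, hk⟩ := ih (b2 / 3) (by omega) (b0 / 3) (b1 / 3) hs.1 hs.2 hWp
      have hc := child_rep m0 m1 m2 hk (by rw [e0, e1, e2]; exact hW)
      rw [e0, e1, e2] at hc
      exact hc
    · have w1 := hW.e1
      have w2 := hW.e2
      obtain ⟨g1, rfl⟩ : ∃ g1, b1 = b0 + g1 := ⟨b1 - b0, by omega⟩
      obtain ⟨g2, rfl⟩ : ∃ g2, b2 = b0 + g1 + g2 := ⟨b2 - (b0 + g1), by omega⟩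
      apply seed_rep
      simp only [List.mem_cons, Prod.mk.injEq, List.mem_nil_iff, or_false]
      push_cast at w1 w2
      clear hW ih
      omega

end Pool.Agent.Work.MP_6f77e1_co
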