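import Mathlib

set_option autoImplicit false

namespace Pool.Agent.Work.MP_6f77e1_co

/-- field number `i` (32 bits wide) of `P` -/
def fld (P i : ℕ) : ℕ := Nat.mod (Nat.shiftRight P (Nat.mul 32 i)) 4294967296

theorem fld_eq (P i : ℕ) : fld P i = P / 2 ^ (32 * i) % 2 ^ 32 := by
  have h : fld P i = (P >>> (32 * i)) % 4294967296 := rfl
  rw [h, Nat.shiftRight_eq_div_pow]
  norm_num

theorem fld_zero (P : ℕ) : fld P 0 = P % 2 ^ 32 := by
  rw [fld_eq]; simp

theorem fld_succ (P i : ℕ) : fld P (i + 1) = fld (P / 2 ^ 32) i := by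
  rw [fld_eq, fld_eq, Nat.div_div_eq_div_mul, ← pow_add]
  congr 3
  ring

/-- the number with `n` fields equal to 1 -/
def ones : ℕ → ℕ
  | 0 => 0
  | n + 1 => 1 + 2 ^ 32 * ones n

theorem fld_shift (P i s : ℕ) : fld (Nat.shiftRight P (Nat.mul 32 s)) i = fld P (i + s) := by
  have h : Nat.shiftRight P (Nat.mul 32 s) = P / 2 ^ (32 * s) := by
    have : Nat.shiftRight P (Nat.mul 32 s) = P >>> (32 * s) := rfl
    rw [this, Nat.shiftRight_eq_div_pow]
  rw [h, fld_eq, fld_eq, Nat.div_div_eq_div_mul, ← pow_add]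
  congr 3
  ring

theorem fld_add (n : ℕ) : ∀ P Q : ℕ, (∀ i < n, fld P i + fld Q i < 2 ^ 32) →
    ∀ i < n, fld (P + Q) i = fld P i + fld Q i := by
  induction n with
  | zero => intro P Q _ i hi; omega
  | succ n ih =>
    intro P Q h i hi
    have h0 := h 0 (by omega)
    rw [fld_zero, fld_zero] at h0
    rcases i with _ | i
    · rw [fld_zero, fld_zero, fld_zero]
      rw [Nat.add_mod, Nat.mod_eq_of_lt h0]
    · rw [fld_succ, fld_succ, fld_succ]
      have e : (P + Q) / 2 ^ 32 = P / 2 ^ 32 + Q / 2 ^ 32 := by omega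
      rw [e]
      apply ih
      · intro j hj
        have := h (j + 1) (by omega)
        rw [fld_succ, fld_succ] at this
        exact this
      · omega

/-- all of the first `n` fields of `P` differ from `T` (`o` is `ones n`) -/
def rowOK (o P T : ℕ) : Bool :=
  Nat.beq (Nat.land (Nat.add (Nat.xor P (Nat.mul T o)) (Nat.mul 2147483647 o))
    (Nat.mul 2147483648 o)) (Nat.mul 2147483648 o)

theorem rowOK_aux (n : ℕ) : ∀ P T : ℕ, T < 2 ^ 31 → (∀ i < n, fld P i < 2 ^ 31) →
    ((P ^^^ (T * ones n)) + 2147483647 * ones n) &&& (2147483648 * ones n) =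
      2147483648 * ones n →
    ∀ i < n, fld P i ≠ T := by
  induction n with
  | zero => intro P T _ _ _ i hi; omega
  | succ n ih =>
    intro P T hT hP h i hi
    have e1 : T * ones (n + 1) = T + 2 ^ 32 * (T * ones n) := by rw [ones]; ring
    have e2 : 2147483647 * ones (n + 1) = 2147483647 + 2 ^ 32 * (2147483647 * ones n) := by
      rw [ones]; ring
    have e3 : 2147483648 * ones (n + 1) = 2147483648 + 2 ^ 32 * (2147483648 * ones n) := by
      rw [ones]; ring
    rw [e1, e2, e3] at h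
    have hp0 := hP 0 (by omega)
    rw [fld_zero] at hp0
    -- xor, digit 0 and the rest
    have x0 : (P ^^^ (T + 2 ^ 32 * (T * ones n))) % 2 ^ 32 = (P % 2 ^ 32) ^^^ T := by
      rw [Nat.xor_mod_two_pow]
      congr 1
      rw [Nat.add_mul_mod_self_left, Nat.mod_eq_of_lt (by omega)]
    have x1 : (P ^^^ (T + 2 ^ 32 * (T * ones n))) / 2 ^ 32 = (P / 2 ^ 32) ^^^ (T * ones n) := by
      rw [Nat.xor_div_two_pow]
      congr 1
      omega
    have hx : (P % 2 ^ 32) ^^^ T < 2 ^ 31 := Nat.xor_lt_two_pow hp0 hT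
    set Y := P ^^^ (T + 2 ^ 32 * (T * ones n)) with hY
    have y0 : (Y + (2147483647 + 2 ^ 32 * (2147483647 * ones n))) % 2 ^ 32 =
        ((P % 2 ^ 32) ^^^ T) + 2147483647 := by omega
    have y1 : (Y + (2147483647 + 2 ^ 32 * (2147483647 * ones n))) / 2 ^ 32 =
        ((P / 2 ^ 32) ^^^ (T * ones n)) + 2147483647 * ones n := by omega
    have z0 := congrArg (· % 2 ^ 32) h
    have z1 := congrArg (· / 2 ^ 32) h
    rw [Nat.and_mod_two_pow, y0] at z0
    rw [Nat.and_div_two_pow, y1] at z1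
    have w0 : (2147483648 + 2 ^ 32 * (2147483648 * ones n)) % 2 ^ 32 = 2147483648 := by omega
    have w1 : (2147483648 + 2 ^ 32 * (2147483648 * ones n)) / 2 ^ 32 = 2147483648 * ones n := by
      omega
    rw [w0] at z0
    rw [w1] at z1
    rcases i with _ | i
    · rw [fld_zero]
      intro hc
      rw [hc, Nat.xor_self] at z0
      revert z0
      decide
    · rw [fld_succ]
      refine ih (P / 2 ^ 32) T hT ?_ z1 i (by omega)
      intro j hj
      rw [← fld_succ]
      exact hP (j + 1) (by omega)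

theorem rowOK_spec (n P T : ℕ) (hP : ∀ i < n, fld P i < 2 ^ 31) (h : rowOK (ones n) P T = true) :
    ∀ i < n, fld P i ≠ T := by
  intro i hi
  by_cases hT : T < 2 ^ 31
  · exact rowOK_aux n P T hT hP (Nat.eq_of_beq_eq_true h) i hi
  · have := hP i hi
    omega

end Pool.Agent.Work.MP_6f77e1_co
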