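import Mathlib
import Pool.Agent.Work.MP_6f77e1_co.Base
import Pool.Agent.Work.MP_6f77e1_co.Defs
import Pool.Agent.Work.MP_6f77e1_co.Swar
import Pool.Agent.Work.MP_6f77e1_co.Blocks

set_option autoImplicit false

namespace Pool.Agent.Work.MP_6f77e1_co

/-- conjunction of `f i` for `i < n` -/
def allN (f : ℕ → Bool) : ℕ → Bool
  | 0 => true
  | n + 1 => f n && allN f n

theorem allN_spec (f : ℕ → Bool) (n : ℕ) (h : allN f n = true) : ∀ i < n, f i = true := by
  induction n with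
  | zero => intro i hi; omega
  | succ n ih =>
    rw [allN, Bool.and_eq_true] at h
    intro i hi
    rcases Nat.lt_succ_iff_lt_or_eq.mp hi with h1 | h1
    · exact ih h.2 i h1
    · subst h1; exact h.1

def P0 (a : ℕ) : ℕ := P0L.getD a 0
def P1 (a : ℕ) : ℕ := P1L.getD a 0
def P2 (a : ℕ) : ℕ := P2L.getD a 0
def V1 (a : ℕ) : ℕ := V1L.getD a 0
def V2 (a : ℕ) : ℕ := V2L.getD a 0

/-- codes of the three kinds of positions -/
def c0 (a i : ℕ) : ℕ := fld (P0 a) i
def c1 (a i : ℕ) : ℕ := fld (P1 a) i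
def c2 (a i : ℕ) : ℕ := fld (P2 a) (Nat.sub (Nat.sub (Nat.mul 2 LL) 1) i)

/-- number of ones, number of changes before position `i`, letter at position `i`, previous
letter, and whether they differ -/
def G1 (a i : ℕ) : ℕ := Nat.mod (c0 a i) 2048
def G2 (a i : ℕ) : ℕ := Nat.mod (Nat.div (c0 a i) 2048) 4096
def Fb (a i : ℕ) : ℕ := Nat.mod (Nat.div (c0 a i) 8388608) 2
def Lb (a : ℕ) : ℕ → ℕ
  | 0 => 1
  | i + 1 => Fb a i
def ne (a i : ℕ) : ℕ := Nat.mod (Nat.add (Lb a i) (Fb a i)) 2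

def chkCode (a i : ℕ) : Bool :=
  Nat.beq (c0 a i) (Nat.add (G1 a i) (Nat.add (Nat.mul 2048 (G2 a i))
    (Nat.add (Nat.mul 8388608 (Fb a i)) 33554432))) &&
  Nat.beq (c2 a i) (Nat.add (G1 a i) (Nat.add (Nat.mul 2048 (Nat.sub (Nat.add (G2 a i) 1) (ne a i)))
    (Nat.add (Nat.mul 16777216 (Lb a i)) 33554432))) &&
  Nat.beq (c1 a i) (Nat.add (Nat.mul 2 (G1 a i))
    (Nat.add (Nat.mul 2048 (Nat.sub (Nat.add (Nat.mul 2 (G2 a i)) 1) (ne a i)))
    (Nat.add (Nat.mul 8388608 (Fb a i)) (Nat.add (Nat.mul 16777216 (Lb a i)) 67108864)))) &&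
  (if Nat.beq i 0 then Nat.beq (G1 a i) 0 && Nat.beq (G2 a i) 0 && Nat.beq (Fb a i) 0 else true) &&
  (if Nat.beq (Nat.add i 1) LL then
    Nat.beq (Fb a i) 1 && Nat.beq (Nat.add (G1 a i) 1) (V1 a) &&
      Nat.beq (Nat.add (G2 a i) 1) (V2 a)
  else
    Nat.beq (G1 a (Nat.add i 1)) (Nat.add (G1 a i) (Fb a i)) &&
      Nat.beq (G2 a (Nat.add i 1)) (Nat.add (G2 a i)
        (Nat.mod (Nat.add (Fb a i) (Fb a (Nat.add i 1))) 2)))

def chkBound (a j : ℕ) : Bool := Nat.blt (fld (P2 a) j) 1073741824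

def chkAll : Bool :=
  allN (fun a => allN (fun i => chkCode a i) LL && allN (fun j => chkBound a j) (Nat.mul 2 LL) &&
    Nat.beq (Nat.shiftRight (P2 a) (Nat.mul 64 LL)) 0) 6 && Nat.ble 2 LL

theorem chkAll_true : chkAll = true := by decide +kernel


theorem LL_ge : 2 ≤ LL := by
  have h := chkAll_true
  rw [chkAll, Bool.and_eq_true] at h
  exact Nat.le_of_ble_eq_true h.2

theorem chk_at {a : ℕ} (ha : a < 6) : (allN (fun i => chkCode a i) LL &&
    allN (fun j => chkBound a j) (Nat.mul 2 LL) &&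
    Nat.beq (Nat.shiftRight (P2 a) (Nat.mul 64 LL)) 0) = true := by
  have h := chkAll_true
  rw [chkAll, Bool.and_eq_true] at h
  exact allN_spec _ 6 h.1 a ha

structure CodeOK (a i : ℕ) : Prop where
  e0 : c0 a i = G1 a i + 2048 * G2 a i + 8388608 * Fb a i + 33554432
  e2 : c2 a i = G1 a i + 2048 * (G2 a i + 1 - ne a i) + 16777216 * Lb a i + 33554432
  e1 : c1 a i = 2 * G1 a i + 2048 * (2 * G2 a i + 1 - ne a i) + 8388608 * Fb a i +
    16777216 * Lb a i + 67108864
  z : i = 0 → G1 a i = 0 ∧ G2 a i = 0 ∧ Fb a i = 0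
  l : i + 1 = LL → Fb a i = 1 ∧ G1 a i + 1 = V1 a ∧ G2 a i + 1 = V2 a
  s : i + 1 ≠ LL → G1 a (i + 1) = G1 a i + Fb a i ∧
    G2 a (i + 1) = G2 a i + (Fb a i + Fb a (i + 1)) % 2

theorem code_ok {a i : ℕ} (ha : a < 6) (hi : i < LL) : CodeOK a i := by
  have h := chk_at ha
  rw [Bool.and_eq_true, Bool.and_eq_true] at h
  have h1 := allN_spec _ LL h.1.1 i hi
  simp only [chkCode, Bool.and_eq_true] at h1
  obtain ⟨⟨⟨⟨t0, t2⟩, t1⟩, t3⟩, t4⟩ := h1
  have t0' := Nat.eq_of_beq_eq_true t0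
  have t1' := Nat.eq_of_beq_eq_true t1
  have t2' := Nat.eq_of_beq_eq_true t2
  simp only [Nat.add_eq, Nat.mul_eq, Nat.sub_eq] at t0' t1' t2'
  refine ⟨?_, ?_, ?_, ?_, ?_, ?_⟩
  · rw [t0']; ring
  · rw [t2']; ring
  · rw [t1']; ring
  · intro h0
    subst h0
    have hb : Nat.beq 0 0 = true := rfl
    rw [hb] at t3
    simp only [if_true, Bool.and_eq_true] at t3
    exact ⟨Nat.eq_of_beq_eq_true t3.1.1, Nat.eq_of_beq_eq_true t3.1.2, Nat.eq_of_beq_eq_true t3.2⟩
  · intro hl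
    have hb : Nat.beq (Nat.add i 1) LL = true := by
      rw [Nat.beq_eq]; exact hl
    rw [hb] at t4
    simp only [if_true, Bool.and_eq_true] at t4
    exact ⟨Nat.eq_of_beq_eq_true t4.1.1, Nat.eq_of_beq_eq_true t4.1.2, Nat.eq_of_beq_eq_true t4.2⟩
  · intro hl
    have hb : Nat.beq (Nat.add i 1) LL = false := by
      rw [← Bool.not_eq_true, Nat.beq_eq]; exact hl
    rw [hb] at t4
    simp only [Bool.false_eq_true, if_false, Bool.and_eq_true] at t4
    exact ⟨Nat.eq_of_beq_eq_true t4.1, Nat.eq_of_beq_eq_true t4.2⟩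

theorem Fb_lt (a i : ℕ) : Fb a i < 2 := Nat.mod_lt _ (by norm_num)
theorem Lb_lt (a i : ℕ) : Lb a i < 2 := by
  cases i with
  | zero => simp [Lb]
  | succ i => exact Fb_lt a i
theorem ne_eq (a i : ℕ) : ne a i = (Lb a i + Fb a i) % 2 := rfl
theorem ne_lt (a i : ℕ) : ne a i < 2 := Nat.mod_lt _ (by norm_num)

/-- the infinite binary word -/
def wd (n : ℕ) : Bool := Nat.beq (Fb (X (n / LL)) (n % LL)) 1

theorem wd_toNat (n : ℕ) : (wd n).toNat = Fb (X (n / LL)) (n % LL) := by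
  have h := Fb_lt (X (n / LL)) (n % LL)
  rw [wd]
  interval_cases hF : Fb (X (n / LL)) (n % LL)
  · rfl
  · rfl

theorem LL_pos : 0 < LL := lt_of_lt_of_le (by norm_num) LL_ge

theorem wd_block {b i : ℕ} (hi : i < LL) : (wd (LL * b + i)).toNat = Fb (X b) i := by
  rw [wd_toNat]
  rw [Nat.mul_add_div LL_pos, Nat.div_eq_of_lt hi, add_zero, Nat.mul_add_mod,
    Nat.mod_eq_of_lt hi]

theorem wd_prev {b i : ℕ} (hi : i < LL) (h1 : 1 ≤ LL * b + i) :
    (wd (LL * b + i - 1)).toNat = Lb (X b) i := by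
  cases i with
  | zero =>
    obtain ⟨c, rfl⟩ : ∃ c, b = c + 1 := by
      cases b with
      | zero => simp at h1
      | succ c => exact ⟨c, rfl⟩
    have e : LL * (c + 1) + 0 - 1 = LL * c + (LL - 1) := by
      have := LL_pos
      rw [mul_add]; omega
    rw [e, wd_block (by have := LL_pos; omega)]
    have hL := LL_pos
    exact ((code_ok (X_lt c) (show LL - 1 < LL by omega)).l (by omega)).1
  | succ i =>
    have e : LL * b + (i + 1) - 1 = LL * b + i := by omega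
    rw [e, wd_block (by omega)]
    rfl

def V1f (a : ℕ) : ℤ := V1 a
def V2f (a : ℕ) : ℤ := V2 a

theorem S_succ (w : ℕ → Bool) (n : ℕ) : S w (n + 1) = S w n + (w n).toNat := by
  simp [S, Finset.sum_range_succ]

theorem R_succ (w : ℕ → Bool) (n : ℕ) : R w (n + 1) = R w n + (w n != w (n + 1)).toNat := by
  simp [R, Finset.sum_range_succ]

theorem bne_toNat (x y : Bool) : (x != y).toNat = (x.toNat + y.toNat) % 2 := by
  cases x <;> cases y <;> rfl

set_option maxRecDepth 20000 in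
theorem SR_formula (b : ℕ) : ∀ i < LL,
    (S wd (LL * b + i) : ℤ) = Psi V1f b + G1 (X b) i ∧
    (R wd (LL * b + i) : ℤ) = Psi V2f b + G2 (X b) i := by
  induction b with
  | zero =>
    intro i
    induction i with
    | zero =>
      intro hi
      have h := (code_ok (X_lt 0) hi).z rfl
      rw [h.1, h.2.1]
      simp [S, R, Psi]
    | succ i ih =>
      intro hi
      obtain ⟨h1, h2⟩ := ih (by omega)
      have h := (code_ok (X_lt 0) (show i < LL by omega)).s (by omega)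
      rw [← add_assoc, S_succ, R_succ, bne_toNat, add_assoc (LL * 0) i 1, wd_block hi,
        wd_block (show i < LL by omega), h.1, h.2]
      push_cast
      constructor <;> linarith
  | succ b ihb =>
    intro i
    induction i with
    | zero =>
      intro hi
      have hL := LL_pos
      obtain ⟨h1, h2⟩ := ihb (LL - 1) (by omega)
      have h := (code_ok (X_lt b) (show LL - 1 < LL by omega)).l (by omega)
      have h0 := (code_ok (X_lt (b + 1)) hi).z rfl
      have e : LL * (b + 1) + 0 = LL * b + (LL - 1) + 1 := by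
        rw [mul_add]; omega
      rw [h0.1, h0.2.1, e, S_succ, R_succ, bne_toNat, ← e, wd_block hi,
        wd_block (show LL - 1 < LL by omega), h0.2.2, h.1, Psi_succ, Psi_succ]
      have e1 : V1f (X b) = (G1 (X b) (LL - 1) : ℤ) + 1 := by
        rw [V1f, ← h.2.1]; push_cast; ring
      have e2 : V2f (X b) = (G2 (X b) (LL - 1) : ℤ) + 1 := by
        rw [V2f, ← h.2.2]; push_cast; ring
      rw [e1, e2]
      push_cast
      constructor
      · linarith
      · norm_num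
        linarith
    | succ i ih =>
      intro hi
      obtain ⟨h1, h2⟩ := ih (by omega)
      have h := (code_ok (X_lt (b + 1)) (show i < LL by omega)).s (by omega)
      rw [← add_assoc, S_succ, R_succ, bne_toNat, add_assoc (LL * (b + 1)) i 1, wd_block hi,
        wd_block (show i < LL by omega), h.1, h.2]
      push_cast
      constructor <;> linarith

theorem R_prev {b i : ℕ} (hi : i < LL) (h1 : 1 ≤ LL * b + i) :
    (R wd (LL * b + i - 1) : ℤ) = Psi V2f b + G2 (X b) i - ne (X b) i := by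
  have h := (SR_formula b i hi).2
  obtain ⟨m, hm⟩ : ∃ m, LL * b + i = m + 1 := ⟨LL * b + i - 1, by omega⟩
  have hp := wd_prev hi h1
  have hc := wd_block (b := b) hi
  rw [hm] at h hp hc ⊢
  rw [Nat.add_sub_cancel] at hp ⊢
  rw [R_succ, bne_toNat, hp, hc] at h
  rw [ne_eq]
  push_cast at h ⊢
  linarith

/-- A conflict gives an equality of codes. -/
theorem conf_codes {c p b0 b1 b2 i0 i1 i2 : ℕ} (hp : 1 ≤ p) (h : Conf wd c p)
    (e0 : c = LL * b0 + i0) (e1 : c + p = LL * b1 + i1) (e2 : c + 2 * p = LL * b2 + i2)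
    (h0 : i0 < LL) (h1 : i1 < LL) (h2 : i2 < LL) :
    (c0 (X b0) i0 : ℤ) + c2 (X b2) i2 + (DD V1f b0 b1 b2 + 2048 * DD V2f b0 b1 b2) =
      c1 (X b1) i1 := by
  obtain ⟨hf, hl, ho, hc⟩ := h
  have s0 := SR_formula b0 i0 h0
  have s1 := SR_formula b1 i1 h1
  have s2 := SR_formula b2 i2 h2
  have r1 := R_prev h1 (show 1 ≤ LL * b1 + i1 by omega)
  have r2 := R_prev h2 (show 1 ≤ LL * b2 + i2 by omega)
  have l1 := wd_prev h1 (show 1 ≤ LL * b1 + i1 by omega)
  have l2 := wd_prev h2 (show 1 ≤ LL * b2 + i2 by omega)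
  have f0 := wd_block (b := b0) h0
  have f1 := wd_block (b := b1) h1
  rw [← e0] at s0 f0
  rw [← e1] at s1 r1 l1 f1
  rw [← e2] at s2 r2 l2
  have hF : Fb (X b0) i0 = Fb (X b1) i1 := by rw [← f0, ← f1, hf]
  have hL : Lb (X b1) i1 = Lb (X b2) i2 := by rw [← l1, ← l2, hl]
  have k0 := code_ok (X_lt b0) h0
  have k1 := code_ok (X_lt b1) h1
  have k2 := code_ok (X_lt b2) h2
  have n1 := ne_lt (X b1) i1
  have n2 := ne_lt (X b2) i2
  have ho' : (S wd (c + 2 * p) : ℤ) + S wd c = 2 * S wd (c + p) := by exact_mod_cast ho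
  have hc' : (R wd (c + 2 * p - 1) : ℤ) + R wd c = R wd (c + p) + R wd (c + p - 1) := by
    exact_mod_cast hc
  rw [s0.1, s1.1, s2.1] at ho'
  rw [s0.2, s1.2, r1, r2] at hc'
  rw [k0.e0, k1.e1, k2.e2, hF, hL]
  simp only [DD]
  push_cast [Nat.cast_sub (show ne (X b1) i1 ≤ 2 * G2 (X b1) i1 + 1 by omega),
    Nat.cast_sub (show ne (X b2) i2 ≤ G2 (X b2) i2 + 1 by omega)]
  linarith

end Pool.Agent.Work.MP_6f77e1_co
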