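import Mathlib
import Pool.Agent.Work.MP_6f77e1_co.Word
import Pool.Agent.Work.MP_6f77e1_co.Main1

set_option autoImplicit false

namespace Pool.Agent.Work.MP_6f77e1_co

/-- The three linear equations of a conflict. -/
theorem conf_parts {c p b0 b1 b2 i0 i1 i2 : ℕ} (hp : 1 ≤ p) (h : Conf wd c p)
    (e0 : c = LL * b0 + i0) (e1 : c + p = LL * b1 + i1) (e2 : c + 2 * p = LL * b2 + i2)
    (h0 : i0 < LL) (h1 : i1 < LL) (h2 : i2 < LL) :
    (LL : ℤ) * ((b2 : ℤ) - 2 * b1 + b0) + ((i2 : ℤ) - 2 * i1 + i0) = 0 ∧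
    DD V1f b0 b1 b2 + ((G1 (X b2) i2 : ℤ) - 2 * G1 (X b1) i1 + G1 (X b0) i0) = 0 ∧
    DD V2f b0 b1 b2 + ((G2 (X b2) i2 : ℤ) - 2 * G2 (X b1) i1 + G2 (X b0) i0) =
      (ne (X b2) i2 : ℤ) - ne (X b1) i1 := by
  obtain ⟨hf, hl, ho, hc⟩ := h
  have s0 := SR_formula b0 i0 h0
  have s1 := SR_formula b1 i1 h1
  have s2 := SR_formula b2 i2 h2
  have r1 := R_prev h1 (show 1 ≤ LL * b1 + i1 by omega)
  have r2 := R_prev h2 (show 1 ≤ LL * b2 + i2 by omega)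
  rw [← e0] at s0
  rw [← e1] at s1 r1
  rw [← e2] at s2 r2
  have ho' : (S wd (c + 2 * p) : ℤ) + S wd c = 2 * S wd (c + p) := by exact_mod_cast ho
  have hc' : (R wd (c + 2 * p - 1) : ℤ) + R wd c = R wd (c + p) + R wd (c + p - 1) := by
    exact_mod_cast hc
  rw [s0.1, s1.1, s2.1] at ho'
  rw [s0.2, s1.2, r1, r2] at hc'
  refine ⟨?_, ?_, ?_⟩
  · have f0 : (c : ℤ) = LL * b0 + i0 := by exact_mod_cast e0
    have f1 : (c : ℤ) + p = LL * b1 + i1 := by exact_mod_cast e1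
    have f2 : (c : ℤ) + 2 * p = LL * b2 + i2 := by exact_mod_cast e2
    linarith
  · rw [DD]; linarith
  · rw [DD]; linarith

theorem Psi_zero (f : ℕ → ℤ) (hf : ∀ a < 6, f a = 0) (n : ℕ) : Psi f n = 0 :=
  Finset.sum_eq_zero fun i _ => hf _ (X_lt i)

/-- two levels of prefixes -/
theorem Psi_two (f : ℕ → ℤ) (hf : ∀ a < 6, MT (MT f) a = 0) (q r1 r2 : ℕ) (h1 : r1 < 3)
    (h2 : r2 < 3) : Psi f (3 * (3 * q + r1) + r2) = pp (MT f) (X q) r1 + pp f (h (X q) r1) r2 := by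
  rw [Psi_mul_add f _ _ h2, Psi_mul_add (MT f) _ _ h1, Psi_zero _ hf, X_mul q r1 h1]
  ring

def nuf (d : RegD) (a : ℕ) : ℤ := d.nu.getD a 0

/-- check of the data of a functional `p φ₁ + q φ₂` with bound `B` -/
def chkReg (d : RegD) (p q B : ℤ) : Bool :=
  allN (fun a =>
    decide (d.c1 * V1 a + d.c2 * V2 a = d.al + d.m * (p * phi1 a + q * phi2 a) + nuf d a) &&
    decide (MT (MT (nuf d)) a = 0) &&
    allN (fun i => decide (d.glo.getD a 0 ≤ LL * (d.c1 * G1 a i + d.c2 * G2 a i) - d.al * i) &&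
      decide (LL * (d.c1 * G1 a i + d.c2 * G2 a i) - d.al * i ≤ d.ghi.getD a 0)) LL &&
    allN (fun r1 => allN (fun r2 =>
      decide (d.lo ≤ d.glo.getD (h (h a r1) r2) 0 +
        LL * (pp (MT (nuf d)) a r1 + pp (nuf d) (h a r1) r2)) &&
      decide (d.ghi.getD (h (h a r1) r2) 0 +
        LL * (pp (MT (nuf d)) a r1 + pp (nuf d) (h a r1) r2) ≤ d.hi)) 3) 3) 6 &&
  decide (2 * (d.hi - d.lo) + LL * |d.c2| < LL * d.m * (B + 1)) && decide (0 < d.m)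

theorem reg0_ok : chkReg reg0 1 0 10 = true := by decide +kernel
theorem reg1_ok : chkReg reg1 0 1 12 = true := by decide +kernel
theorem reg2_ok : chkReg reg2 3 1 32 = true := by decide +kernel
theorem reg3_ok : chkReg reg3 1 (-1) 16 = true := by decide +kernel

theorem chkReg_spec (d : RegD) (p q B : ℤ) (hd : chkReg d p q B = true) :
    (∀ a < 6, d.c1 * V1 a + d.c2 * V2 a = d.al + d.m * (p * phi1 a + q * phi2 a) + nuf d a) ∧
    (∀ a < 6, MT (MT (nuf d)) a = 0) ∧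
    (∀ b i, i < LL →
      d.lo ≤ LL * (d.c1 * G1 (X b) i + d.c2 * G2 (X b) i) - d.al * i + LL * Psi (nuf d) b ∧
      LL * (d.c1 * G1 (X b) i + d.c2 * G2 (X b) i) - d.al * i + LL * Psi (nuf d) b ≤ d.hi) ∧
    2 * (d.hi - d.lo) + LL * |d.c2| < LL * d.m * (B + 1) ∧ 0 < d.m := by
  rw [chkReg, Bool.and_eq_true, Bool.and_eq_true, decide_eq_true_iff, decide_eq_true_iff] at hd
  obtain ⟨⟨h1, h2⟩, h3⟩ := hd
  have g : ∀ a < 6, _ := fun a ha => allN_spec _ 6 h1 a ha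
  simp only [Bool.and_eq_true, decide_eq_true_iff] at g
  have hM : ∀ a < 6, MT (MT (nuf d)) a = 0 := fun a ha => (g a ha).1.1.2
  refine ⟨fun a ha => (g a ha).1.1.1, hM, ?_, h2, h3⟩
  intro b i hi
  have e : 3 * (3 * (b / 9) + b / 3 % 3) + b % 3 = b := by omega
  have m1 : b / 3 % 3 < 3 := Nat.mod_lt _ (by norm_num)
  have m2 : b % 3 < 3 := Nat.mod_lt _ (by norm_num)
  have hx : X b = h (h (X (b / 9)) (b / 3 % 3)) (b % 3) := by
    rw [← X_mul _ _ m1, ← X_mul _ _ m2, e]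
  have hP : Psi (nuf d) b = pp (MT (nuf d)) (X (b / 9)) (b / 3 % 3) +
      pp (nuf d) (h (X (b / 9)) (b / 3 % 3)) (b % 3) := by
    rw [← Psi_two (nuf d) hM _ _ _ m1 m2, e]
  have q1 := allN_spec _ LL (g (X b) (X_lt b)).1.2 i hi
  have q2 := allN_spec _ 3 (allN_spec _ 3 (g (X (b / 9)) (X_lt _)).2 _ m1) _ m2
  simp only [Bool.and_eq_true, decide_eq_true_iff] at q1 q2
  rw [← hx, ← hP] at q2
  constructor
  · linarith [q1.1, q2.1]
  · linarith [q1.2, q2.2]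

theorem region_bound (d : RegD) (p q B : ℤ) (hd : chkReg d p q B = true)
    {c pp b0 b1 b2 i0 i1 i2 : ℕ} (hp : 1 ≤ pp) (h : Conf wd c pp)
    (e0 : c = LL * b0 + i0) (e1 : c + pp = LL * b1 + i1) (e2 : c + 2 * pp = LL * b2 + i2)
    (h0 : i0 < LL) (h1 : i1 < LL) (h2 : i2 < LL) :
    -B ≤ p * DD phi1 b0 b1 b2 + q * DD phi2 b0 b1 b2 ∧
      p * DD phi1 b0 b1 b2 + q * DD phi2 b0 b1 b2 ≤ B := by
  obtain ⟨hV, hM, hρ, hB, hm⟩ := chkReg_spec d p q B hd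
  obtain ⟨a1, a2, a3⟩ := conf_parts hp h e0 e1 e2 h0 h1 h2
  have hψ : ∀ b, d.c1 * Psi V1f b + d.c2 * Psi V2f b = d.al * b +
      d.m * (p * Psi phi1 b + q * Psi phi2 b) + Psi (nuf d) b := by
    intro b
    induction b with
    | zero => simp [Psi]
    | succ b ih =>
      rw [Psi_succ, Psi_succ, Psi_succ, Psi_succ, Psi_succ]
      have := hV (X b) (X_lt b)
      push_cast
      simp only [V1f, V2f]
      linarith
  have g0 := hψ b0
  have g1 := hψ b1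
  have g2 := hψ b2
  have r0 := hρ b0 i0 h0
  have r1 := hρ b1 i1 h1
  have r2 := hρ b2 i2 h2
  have n1 := ne_lt (X b1) i1
  have n2 := ne_lt (X b2) i2
  have hL : (0 : ℤ) < LL := by exact_mod_cast LL_pos
  -- the key identity
  have key : LL * d.m * (p * DD phi1 b0 b1 b2 + q * DD phi2 b0 b1 b2) =
      LL * (d.c2 * ((ne (X b2) i2 : ℤ) - ne (X b1) i1)) -
      ((LL * (d.c1 * G1 (X b2) i2 + d.c2 * G2 (X b2) i2) - d.al * i2 + LL * Psi (nuf d) b2) -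
        2 * (LL * (d.c1 * G1 (X b1) i1 + d.c2 * G2 (X b1) i1) - d.al * i1 +
          LL * Psi (nuf d) b1) +
        (LL * (d.c1 * G1 (X b0) i0 + d.c2 * G2 (X b0) i0) - d.al * i0 + LL * Psi (nuf d) b0)) := by
    rw [← a3]
    simp only [DD] at a2 ⊢
    linear_combination -(LL : ℤ) * (g2 - 2 * g1 + g0) + (LL : ℤ) * d.c1 * a2 - d.al * a1
  have habs : |LL * (d.c2 * ((ne (X b2) i2 : ℤ) - ne (X b1) i1))| ≤ LL * |d.c2| := by
    rw [abs_mul, abs_mul, abs_of_pos hL]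
    have h7 : |(ne (X b2) i2 : ℤ) - ne (X b1) i1| ≤ 1 := by
      rw [abs_le]; constructor <;> omega
    have h5 : 0 ≤ |d.c2| := abs_nonneg _
    calc (LL : ℤ) * (|d.c2| * |(ne (X b2) i2 : ℤ) - ne (X b1) i1|) ≤ LL * (|d.c2| * 1) :=
          mul_le_mul_of_nonneg_left (mul_le_mul_of_nonneg_left h7 h5) (le_of_lt hL)
      _ = LL * |d.c2| := by ring
  rw [abs_le] at habs
  have hLm : 0 < LL * d.m := mul_pos hL hm
  clear g0 g1 g2 a1 a2 a3 hψ hρ hM hV n1 n2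
  obtain ⟨r00, r01⟩ := r0
  obtain ⟨r10, r11⟩ := r1
  obtain ⟨r20, r21⟩ := r2
  obtain ⟨ha1, ha2⟩ := habs
  generalize (LL * (d.c1 * G1 (X b2) i2 + d.c2 * G2 (X b2) i2) - d.al * i2 +
    LL * Psi (nuf d) b2 : ℤ) = R2 at *
  generalize (LL * (d.c1 * G1 (X b1) i1 + d.c2 * G2 (X b1) i1) - d.al * i1 +
    LL * Psi (nuf d) b1 : ℤ) = R1 at *
  generalize (LL * (d.c1 * G1 (X b0) i0 + d.c2 * G2 (X b0) i0) - d.al * i0 +
    LL * Psi (nuf d) b0 : ℤ) = R0 at *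
  generalize (LL * (d.c2 * ((ne (X b2) i2 : ℤ) - ne (X b1) i1)) : ℤ) = NN at *
  constructor
  · by_contra hcon
    push Not at hcon
    have : p * DD phi1 b0 b1 b2 + q * DD phi2 b0 b1 b2 ≤ -(B + 1) := by omega
    have h6 := mul_le_mul_of_nonneg_left this (le_of_lt hLm)
    rw [key] at h6
    linarith
  · by_contra hcon
    push Not at hcon
    have : B + 1 ≤ p * DD phi1 b0 b1 b2 + q * DD phi2 b0 b1 b2 := by omega
    have h6 := mul_le_mul_of_nonneg_left this (le_of_lt hLm)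
    rw [key] at h6
    linarith

/-- a conflict lies in the region -/
theorem conf_InW {c p b0 b1 b2 i0 i1 i2 : ℕ} (hp : 1 ≤ p) (h : Conf wd c p)
    (e0 : c = LL * b0 + i0) (e1 : c + p = LL * b1 + i1) (e2 : c + 2 * p = LL * b2 + i2)
    (h0 : i0 < LL) (h1 : i1 < LL) (h2 : i2 < LL) : InW b0 b1 b2 := by
  obtain ⟨a1, -, -⟩ := conf_parts hp h e0 e1 e2 h0 h1 h2
  have t0 := region_bound reg0 1 0 10 reg0_ok hp h e0 e1 e2 h0 h1 h2
  have t1 := region_bound reg1 0 1 12 reg1_ok hp h e0 e1 e2 h0 h1 h2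
  have t2 := region_bound reg2 3 1 32 reg2_ok hp h e0 e1 e2 h0 h1 h2
  have t3 := region_bound reg3 1 (-1) 16 reg3_ok hp h e0 e1 e2 h0 h1 h2
  have hL : (0 : ℤ) < LL := by exact_mod_cast LL_pos
  have ee : -1 ≤ (b2 : ℤ) - 2 * b1 + b0 ∧ (b2 : ℤ) - 2 * b1 + b0 ≤ 1 := by
    set e := (b2 : ℤ) - 2 * b1 + b0 with he
    have u0 : (i0 : ℤ) < LL := by exact_mod_cast h0
    have u1 : (i1 : ℤ) < LL := by exact_mod_cast h1
    have u2 : (i2 : ℤ) < LL := by exact_mod_cast h2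
    constructor
    · by_contra hcon
      push Not at hcon
      have : e ≤ -2 := by omega
      nlinarith
    · by_contra hcon
      push Not at hcon
      have : 2 ≤ e := by omega
      nlinarith
  exact ⟨ee.1, ee.2, by linarith [t0.1], by linarith [t0.2], by linarith [t1.1], by linarith [t1.2],
    by linarith [t2.1], by linarith [t2.2], by linarith [t3.1], by linarith [t3.2]⟩

end Pool.Agent.Work.MP_6f77e1_co
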