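import Mathlib
import Pool.Agent.Work.MP_6f77e1_co.Region

set_option autoImplicit false

namespace Pool.Agent.Work.MP_6f77e1_co

def u1 (a : ℕ) : ℕ := u1L.getD a 0
def w1 (a : ℕ) : ℕ := w1L.getD a 0
def u2 (a : ℕ) : ℕ := u2L.getD a 0
def w2 (a : ℕ) : ℕ := w2L.getD a 0

/-- all fields of `P` differ from `T` -/
def rowL (P T : ℕ) : Bool :=
  Nat.beq (Nat.land (Nat.add (Nat.xor P (Nat.mul T onesL)) o7L) o8L) o8L

/-- `Bool` conditional by the recursor -/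
noncomputable def cnd (b t f : Bool) : Bool := Bool.rec f t b

theorem cnd_eq_true (b t f : Bool) (h : cnd b t f = true) : b = true ∧ t = true ∨
    b = false ∧ f = true := by
  cases b
  · right; exact ⟨rfl, h⟩
  · left; exact ⟨rfl, h⟩

/-- conjunction of `f i` for `i < n`, by the recursor -/
noncomputable def allR' (f : ℕ → Bool) (n : ℕ) : Bool :=
  Nat.rec (motive := fun _ => Bool) true (fun k r => cnd (f k) r false) n

theorem allR'_spec (f : ℕ → Bool) (n : ℕ) (h : allR' f n = true) : ∀ i < n, f i = true := by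
  induction n with
  | zero => intro i hi; omega
  | succ n ih =>
    have h' : cnd (f n) (allR' f n) false = true := h
    rcases cnd_eq_true _ _ _ h' with ⟨h1, h2⟩ | ⟨_, h2⟩
    · intro i hi
      rcases Nat.lt_succ_iff_lt_or_eq.mp hi with h3 | h3
      · exact ih h2 i h3
      · subst h3; exact h1
    · exact absurd h2 (by decide)

/-- `2 ^ 30 + 6 LL (2 G₁) - 2 s₁ i` -/
def dA (a i : ℕ) : ℕ :=
  Nat.sub (Nat.add 1073741824 (Nat.mul (Nat.mul 6 LL) (Nat.mod (c1 a i) 2048)))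
    (Nat.mul (Nat.mul 2 s1) i)

/-- `2 ^ 30 + 6 LL (2 G₂ + 1 - ne) - 2 s₂ i` -/
def dB (a i : ℕ) : ℕ :=
  Nat.sub (Nat.add 1073741824 (Nat.mul (Nat.mul 6 LL) (Nat.mod (Nat.div (c1 a i) 2048) 4096)))
    (Nat.mul (Nat.mul 2 s2) i)

/-- the row of the middle index `i1` -/
noncomputable def rowT (a0 a1 a2 LE WX lA hA lB hB i1 : ℕ) : Bool :=
  cnd (Nat.ble lA (dA a1 i1)) (cnd (Nat.ble (dA a1 i1) hA) (cnd (Nat.ble lB (dB a1 i1))
    (cnd (Nat.ble (dB a1 i1) hB)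
  (force (Nat.add (Nat.mul 2 i1) (Nat.mul 96 LL)) (fun A =>
    Nat.blt A LE || force (Nat.sub A LE) (fun S => Nat.blt (Nat.sub (Nat.mul 2 LL) 2) S ||
      rowL (Nat.add (P0 a0) (Nat.shiftRight (P2 a2)
        (Nat.mul 32 (Nat.sub (Nat.sub (Nat.mul 2 LL) 1) S))))
        (Nat.sub (Nat.add (c1 a1 i1) (Nat.mul 16 (Nat.add s1 (Nat.mul 2048 s2)))) WX))))
  true) true) true) true

/-- check that the template with code `k` has no conflict -/
noncomputable def chkT (k : ℕ) : Bool :=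
  force (Nat.mod k 8) (fun a0 => force (Nat.mod (Nat.div k 8) 8) (fun a1 =>
  force (Nat.mod (Nat.div k 64) 8) (fun a2 => force (Nat.div k 512) (fun D =>
  force (Nat.mod D 128) (fun x0 => force (Nat.mod (Nat.div D 128) 128) (fun x1 =>
  force (Nat.mod (Nat.div D 16384) 128) (fun x2 =>
  force (Nat.mod (Nat.div D 2097152) 128) (fun x3 =>
  force (Nat.mod (Nat.div D 268435456) 128) (fun x4 =>
  force (Nat.div D 34359738368) (fun x5 =>
  force (Nat.add x0 (Nat.add x1 (Nat.add x2 (Nat.add x3 (Nat.add x4 x5))))) (fun E =>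
  force (Nat.add (Nat.mul x0 (V1 0)) (Nat.add (Nat.mul x1 (V1 1)) (Nat.add (Nat.mul x2 (V1 2))
    (Nat.add (Nat.mul x3 (V1 3)) (Nat.add (Nat.mul x4 (V1 4)) (Nat.mul x5 (V1 5))))))) (fun v1 =>
  force (Nat.add (Nat.mul x0 (V2 0)) (Nat.add (Nat.mul x1 (V2 1)) (Nat.add (Nat.mul x2 (V2 2))
    (Nat.add (Nat.mul x3 (V2 3)) (Nat.add (Nat.mul x4 (V2 4)) (Nat.mul x5 (V2 5))))))) (fun v2 =>
  force (Nat.mul LL E) (fun LE =>
    Nat.blt (Nat.add (Nat.mul 6 (Nat.mul LL v1)) (Nat.add (w1 a0) (Nat.add (w1 a2)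
      (Nat.mul 2 (u1 a1))))) (Nat.mul s1 LE) ||
    Nat.blt (Nat.add (Nat.mul s1 LE) (Nat.add (u1 a0) (Nat.add (u1 a2)
      (Nat.mul 2 (w1 a1))))) (Nat.mul 6 (Nat.mul LL v1)) ||
    Nat.blt (Nat.add (Nat.mul 6 (Nat.mul LL v2)) (Nat.add (w2 a0) (Nat.add (w2 a2)
      (Nat.mul 2 (u2 a1))))) (Nat.mul s2 LE) ||
    Nat.blt (Nat.add (Nat.mul s2 LE) (Nat.add (u2 a0) (Nat.add (u2 a2)
      (Nat.mul 2 (w2 a1))))) (Nat.mul 6 (Nat.mul LL v2)) ||
    force (Nat.add v1 (Nat.mul 2048 v2)) (fun WX =>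
    force (Nat.sub (Nat.add 1073741824 (Nat.mul (Nat.mul 6 LL) v1))
      (Nat.add (Nat.mul s1 LE) (Nat.add (u1 a0) (u1 a2)))) (fun lA =>
    force (Nat.sub (Nat.add 1073741824 (Nat.add (Nat.mul (Nat.mul 6 LL) v1)
      (Nat.add (w1 a0) (w1 a2)))) (Nat.mul s1 LE)) (fun hA =>
    force (Nat.sub (Nat.add 1073741824 (Nat.mul (Nat.mul 6 LL) (Nat.add v2 1)))
      (Nat.add (Nat.mul s2 LE) (Nat.add (u2 a0) (u2 a2)))) (fun lB =>
    force (Nat.sub (Nat.add 1073741824 (Nat.add (Nat.mul (Nat.mul 6 LL) (Nat.add v2 1))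
      (Nat.add (w2 a0) (w2 a2)))) (Nat.mul s2 LE)) (fun hB =>
      allR' (fun i1 => rowT a0 a1 a2 LE WX lA hA lB hB i1) LL)))))))))))))))))))

noncomputable def chkTA (i : ℕ) : Bool := force (entA i) (fun k => Nat.beq k 0 || chkT k)
noncomputable def chkTB (i : ℕ) : Bool := force (entB i) (fun k => Nat.beq k 0 || chkT k)

end Pool.Agent.Work.MP_6f77e1_co
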