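import Mathlib
import Pool.Agent.Work.MP_6f77e1_co.Row

set_option autoImplicit false
set_option maxHeartbeats 4000000

namespace Pool.Agent.Work.MP_6f77e1_co

theorem onesL_eq : onesL = ones LL := by decide +kernel
theorem o7L_eq : o7L = 2147483647 * onesL := by decide +kernel
theorem o8L_eq : o8L = 2147483648 * onesL := by decide +kernel

theorem rowL_eq (P T : ℕ) : rowL P T = rowOK onesL P T := by
  rw [rowL, rowOK]
  have h7 : Nat.mul 2147483647 onesL = o7L := o7L_eq.symm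
  have h8 : Nat.mul 2147483648 onesL = o8L := o8L_eq.symm
  rw [h7, h8]

theorem G1_lt (a i : ℕ) : G1 a i < 2048 := Nat.mod_lt _ (by norm_num)
theorem G2_lt (a i : ℕ) : G2 a i < 4096 := Nat.mod_lt _ (by norm_num)

theorem P0_fld_lt {a i : ℕ} (ha : a < 6) (hi : i < LL) : fld (P0 a) i < 2 ^ 26 := by
  have h := (code_ok ha hi).e0
  have g1 := G1_lt a i
  have g2 := G2_lt a i
  have f := Fb_lt a i
  rw [c0] at h
  rw [h]
  omega

theorem fld_high (P n j : ℕ) (h : P / 2 ^ (32 * n) = 0) (hj : n ≤ j) : fld P j = 0 := by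
  rw [fld_eq]
  obtain ⟨m, rfl⟩ := Nat.exists_eq_add_of_le hj
  rw [mul_add, pow_add, ← Nat.div_div_eq_div_mul, h]
  simp

theorem P2_fld_lt {a : ℕ} (ha : a < 6) (j : ℕ) : fld (P2 a) j < 2 ^ 30 := by
  have h := chk_at ha
  rw [Bool.and_eq_true, Bool.and_eq_true] at h
  by_cases hj : j < 2 * LL
  · have := allN_spec _ (Nat.mul 2 LL) h.1.2 j hj
    simp only [chkBound, Nat.blt_eq] at this
    exact this
  · have h2 := Nat.eq_of_beq_eq_true h.2
    have h3 : P2 a / 2 ^ (32 * (2 * LL)) = 0 := by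
      rw [← h2]
      have : Nat.shiftRight (P2 a) (Nat.mul 64 LL) = P2 a >>> (64 * LL) := rfl
      rw [this, Nat.shiftRight_eq_div_pow]
      congr 2
    rw [fld_high _ _ _ h3 (by omega)]
    decide

/-- semantics of a row -/
theorem row_spec {a0 a2 n s T : ℕ} (ha0 : a0 < 6) (ha2 : a2 < 6) (hn : n ≤ LL) 
    (h : rowOK (ones n) (Nat.add (P0 a0) (Nat.shiftRight (P2 a2) (Nat.mul 32 s))) T = true) :
    ∀ i < n, fld (P0 a0) i + fld (P2 a2) (i + s) ≠ T := by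
  intro i hi
  have hb : ∀ j < n, fld (P0 a0) j + fld (Nat.shiftRight (P2 a2) (Nat.mul 32 s)) j < 2 ^ 31 := by
    intro j hj
    rw [fld_shift]
    have u := P0_fld_lt ha0 (show j < LL by omega)
    have v := P2_fld_lt ha2 (j + s)
    omega
  have hadd := fld_add n (P0 a0) (Nat.shiftRight (P2 a2) (Nat.mul 32 s))
    (fun j hj => lt_trans (hb j hj) (by norm_num))
  have := rowOK_spec n (Nat.add (P0 a0) (Nat.shiftRight (P2 a2) (Nat.mul 32 s))) T
    (fun j hj => by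
      have e : Nat.add (P0 a0) (Nat.shiftRight (P2 a2) (Nat.mul 32 s)) =
        P0 a0 + Nat.shiftRight (P2 a2) (Nat.mul 32 s) := rfl
      rw [e, hadd j hj]; exact hb j hj) h i hi
  have e : Nat.add (P0 a0) (Nat.shiftRight (P2 a2) (Nat.mul 32 s)) =
    P0 a0 + Nat.shiftRight (P2 a2) (Nat.mul 32 s) := rfl
  rw [e, hadd i hi, fld_shift] at this
  exact this

theorem rowT_spec {a0 a1 a2 LE WX lA hA lB hB i0 i1 i2 : ℕ} (ha0 : a0 < 6) (ha2 : a2 < 6)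
    (h0 : i0 < LL) (h2 : i2 < LL) (h : rowT a0 a1 a2 LE WX lA hA lB hB i1 = true)
    (hlA : lA ≤ dA a1 i1) (hhA : dA a1 i1 ≤ hA) (hlB : lB ≤ dB a1 i1) (hhB : dB a1 i1 ≤ hB)
    (hS : i0 + i2 + LE = 2 * i1 + 96 * LL)
    (hc : c0 a0 i0 + c2 a2 i2 + WX = c1 a1 i1 + 16 * (s1 + 2048 * s2)) : False := by
  have b1 := Nat.ble_eq_true_of_le hlA
  have b2 := Nat.ble_eq_true_of_le hhA
  have b3 := Nat.ble_eq_true_of_le hlB
  have b4 := Nat.ble_eq_true_of_le hhB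
  rw [rowT, b1, b2, b3, b4] at h
  have h : (force (Nat.add (Nat.mul 2 i1) (Nat.mul 96 LL)) (fun A =>
    Nat.blt A LE || force (Nat.sub A LE) (fun S => Nat.blt (Nat.sub (Nat.mul 2 LL) 2) S ||
      rowL (Nat.add (P0 a0) (Nat.shiftRight (P2 a2)
        (Nat.mul 32 (Nat.sub (Nat.sub (Nat.mul 2 LL) 1) S))))
        (Nat.sub (Nat.add (c1 a1 i1) (Nat.mul 16 (Nat.add s1 (Nat.mul 2048 s2)))) WX)))) =
        true := h
  rw [force_eq, force_eq, rowL_eq, onesL_eq, Bool.or_eq_true, Bool.or_eq_true] at h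
  have eA : Nat.add (Nat.mul 2 i1) (Nat.mul 96 LL) = 2 * i1 + 96 * LL := rfl
  have eS : Nat.sub (Nat.add (Nat.mul 2 i1) (Nat.mul 96 LL)) LE = i0 + i2 := by
    rw [eA, ← hS]
    exact Nat.add_sub_cancel _ _
  rw [eS, eA] at h
  rcases h with h | h | h
  · rw [Nat.blt_eq] at h; omega
  · rw [Nat.blt_eq] at h
    have : Nat.sub (Nat.mul 2 LL) 2 = 2 * LL - 2 := rfl
    omega
  · have hr := row_spec ha0 ha2 (le_refl LL) h i0 h0
    have e1 : Nat.sub (Nat.sub (Nat.mul 2 LL) 1) (i0 + i2) = 2 * LL - 1 - (i0 + i2) := rfl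
    have e2 : Nat.sub (Nat.add (c1 a1 i1) (Nat.mul 16 (Nat.add s1 (Nat.mul 2048 s2)))) WX =
      c1 a1 i1 + 16 * (s1 + 2048 * s2) - WX := rfl
    rw [e1, e2] at hr
    apply hr
    have e3 : i0 + (2 * LL - 1 - (i0 + i2)) = 2 * LL - 1 - i2 := by omega
    rw [e3]
    have e4 : c2 a2 i2 = fld (P2 a2) (2 * LL - 1 - i2) := rfl
    have e5 : c0 a0 i0 = fld (P0 a0) i0 := rfl
    rw [← e4, ← e5]
    omega

/-- check of the deviations -/
def chkDev : Bool :=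
  allN (fun a => allN (fun i =>
    Nat.beq (Nat.add (dA a i) (Nat.mul 2 (Nat.mul s1 i)))
      (Nat.add 1073741824 (Nat.mul 12 (Nat.mul LL (G1 a i)))) &&
    Nat.beq (Nat.add (dB a i) (Nat.add (Nat.mul 2 (Nat.mul s2 i)) (Nat.mul 6 (Nat.mul LL (ne a i)))))
      (Nat.add 1073741824 (Nat.add (Nat.mul 6 LL) (Nat.mul 12 (Nat.mul LL (G2 a i)))))) LL) 6

theorem chkDev_true : chkDev = true := by decide +kernel

theorem dev_ok {a i : ℕ} (ha : a < 6) (hi : i < LL) :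
    dA a i + 2 * (s1 * i) = 1073741824 + 12 * (LL * G1 a i) ∧
    dB a i + (2 * (s2 * i) + 6 * (LL * ne a i)) = 1073741824 + (6 * LL + 12 * (LL * G2 a i)) := by
  have h := chkDev_true
  rw [chkDev] at h
  have h1 := allN_spec _ LL (allN_spec _ 6 h a ha) i hi
  simp only [Bool.and_eq_true] at h1
  exact ⟨Nat.eq_of_beq_eq_true h1.1, Nat.eq_of_beq_eq_true h1.2⟩

/-- check of the ranges -/
def chkRange : Bool :=
  allN (fun a => allN (fun i =>
    Nat.ble (Nat.mul s1 i) (Nat.add (Nat.mul 6 (Nat.mul LL (G1 a i))) (u1 a)) &&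
    Nat.ble (Nat.mul 6 (Nat.mul LL (G1 a i))) (Nat.add (Nat.mul s1 i) (w1 a)) &&
    Nat.ble (Nat.mul 6 (Nat.mul LL (G2 a i))) (Nat.add (Nat.mul s2 i) (w2 a)) &&
    Nat.ble (Nat.add (Nat.mul 6 (Nat.mul LL (ne a i))) (Nat.mul s2 i))
      (Nat.add (Nat.mul 6 (Nat.mul LL (G2 a i))) (u2 a))) LL) 6 &&
  Nat.beq s1 (V1 0 + V1 1 + V1 2 + V1 3 + V1 4 + V1 5) &&
  Nat.beq s2 (V2 0 + V2 1 + V2 2 + V2 3 + V2 4 + V2 5)

theorem chkRange_true : chkRange = true := by decide +kernel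

structure RangeOK (a i : ℕ) : Prop where
  r1 : s1 * i ≤ 6 * (LL * G1 a i) + u1 a
  r2 : 6 * (LL * G1 a i) ≤ s1 * i + w1 a
  r3 : 6 * (LL * G2 a i) ≤ s2 * i + w2 a
  r4 : 6 * (LL * ne a i) + s2 * i ≤ 6 * (LL * G2 a i) + u2 a

theorem range_ok {a i : ℕ} (ha : a < 6) (hi : i < LL) : RangeOK a i := by
  have h := chkRange_true
  rw [chkRange, Bool.and_eq_true, Bool.and_eq_true] at h
  have h1 := allN_spec _ LL (allN_spec _ 6 h.1.1 a ha) i hi
  simp only [Bool.and_eq_true] at h1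
  obtain ⟨⟨⟨t1, t2⟩, t3⟩, t4⟩ := h1
  exact ⟨Nat.le_of_ble_eq_true t1, Nat.le_of_ble_eq_true t2, Nat.le_of_ble_eq_true t3,
    Nat.le_of_ble_eq_true t4⟩

theorem s1_eq : s1 = V1 0 + V1 1 + V1 2 + V1 3 + V1 4 + V1 5 := by
  have h := chkRange_true
  rw [chkRange, Bool.and_eq_true, Bool.and_eq_true] at h
  exact Nat.eq_of_beq_eq_true h.1.2

theorem s2_eq : s2 = V2 0 + V2 1 + V2 2 + V2 3 + V2 4 + V2 5 := by
  have h := chkRange_true
  rw [chkRange, Bool.and_eq_true, Bool.and_eq_true] at h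
  exact Nat.eq_of_beq_eq_true h.2

/-- a template whose check succeeds has no conflict -/
theorem chkT_spec {k c p b0 b1 b2 i0 i1 i2 : ℕ} (hk : Rep k b0 b1 b2) (hT : chkT k = true)
    (hp : 1 ≤ p) (h : Conf wd c p)
    (e0 : c = LL * b0 + i0) (e1 : c + p = LL * b1 + i1) (e2 : c + 2 * p = LL * b2 + i2)
    (h0 : i0 < LL) (h1 : i1 < LL) (h2 : i2 < LL) : False := by
  obtain ⟨q0, q1, q2, y0, y1, y2, y3, y4, y5⟩ := hk.decode
  obtain ⟨a1, a2, a3⟩ := conf_parts hp h e0 e1 e2 h0 h1 h2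
  have hcode := conf_codes hp h e0 e1 e2 h0 h1 h2
  have hs := sum_dv b0 b1 b2
  have hd1 := DD_expand V1f b0 b1 b2
  have hd2 := DD_expand V2f b0 b1 b2
  have ea0 : Nat.mod k 8 = X b0 := q0
  have ea1 : Nat.mod (Nat.div k 8) 8 = X b1 := q1
  have ea2 : Nat.mod (Nat.div k 64) 8 = X b2 := q2
  have t : ∀ m n : ℕ, Nat.div m n = m / n := fun _ _ => rfl
  have r : ∀ m n : ℕ, Nat.mod m n = m % n := fun _ _ => rfl
  simp only [chkT, force_eq] at hT
  rw [ea0, ea1, ea2] at hT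
  simp only [r, t] at hT
  clear ea0 ea1 ea2 q0 q1 q2
  generalize k / 512 % 128 = x0 at *
  generalize k / 512 / 128 % 128 = x1 at *
  generalize k / 512 / 16384 % 128 = x2 at *
  generalize k / 512 / 2097152 % 128 = x3 at *
  generalize k / 512 / 268435456 % 128 = x4 at *
  generalize k / 512 / 34359738368 = x5 at *
  have z0 : dv 0 b0 b1 b2 = (x0 : ℤ) - 16 := by rw [y0]; ring
  have z1 : dv 1 b0 b1 b2 = (x1 : ℤ) - 16 := by rw [y1]; ring
  have z2 : dv 2 b0 b1 b2 = (x2 : ℤ) - 16 := by rw [y2]; ring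
  have z3 : dv 3 b0 b1 b2 = (x3 : ℤ) - 16 := by rw [y3]; ring
  have z4 : dv 4 b0 b1 b2 = (x4 : ℤ) - 16 := by rw [y4]; ring
  have z5 : dv 5 b0 b1 b2 = (x5 : ℤ) - 16 := by rw [y5]; ring
  rw [z0, z1, z2, z3, z4, z5] at hs hd1 hd2
  simp only [V1f, V2f] at hd1 hd2
  rw [Bool.or_eq_true, Bool.or_eq_true, Bool.or_eq_true, Bool.or_eq_true] at hT
  simp only [Nat.blt_eq, Nat.add_eq, Nat.mul_eq] at hT
  set E := x0 + (x1 + (x2 + (x3 + (x4 + x5)))) with hE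
  set v1 := x0 * V1 0 + (x1 * V1 1 + (x2 * V1 2 + (x3 * V1 3 + (x4 * V1 4 + x5 * V1 5)))) with hv1
  set v2 := x0 * V2 0 + (x1 * V2 1 + (x2 * V2 2 + (x3 * V2 3 + (x4 * V2 4 + x5 * V2 5)))) with hv2
  have hV1f : DD V1f b0 b1 b2 = v1 - 16 * s1 := by
    rw [hd1, s1_eq, hv1]; push_cast; ring
  have hV2f : DD V2f b0 b1 b2 = v2 - 16 * s2 := by
    rw [hd2, s2_eq, hv2]; push_cast; ring
  have kE : (E : ℤ) - 96 = (b2 : ℤ) - 2 * b1 + b0 := by
    rw [← hs, hE]; push_cast; ring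
  clear hd1 hd2 hs z0 z1 z2 z3 z4 z5 y0 y1 y2 y3 y4 y5
  rw [hV1f] at a2 hcode
  rw [hV2f] at a3 hcode
  rw [← kE] at a1
  clear_value E v1 v2
  clear hV1f hV2f kE hE hv1 hv2
  have R0 := range_ok (X_lt b0) h0
  have R1 := range_ok (X_lt b1) h1
  have R2 := range_ok (X_lt b2) h2
  have n0 : (0 : ℤ) ≤ LL * ne (X b0) i0 := by positivity
  have n2' : (0 : ℤ) ≤ LL * ne (X b2) i2 := by positivity
  have n1' : (0 : ℤ) ≤ LL * ne (X b1) i1 := by positivity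
  -- scaled versions
  have A1 : (LL : ℤ) * E + (i0 + i2) = 96 * LL + 2 * i1 := by linarith
  have A2 : (v1 : ℤ) + G1 (X b2) i2 + G1 (X b0) i0 = 2 * G1 (X b1) i1 + 16 * s1 := by linarith
  have A3 : (v2 : ℤ) + G2 (X b2) i2 + G2 (X b0) i0 + ne (X b1) i1 =
    2 * G2 (X b1) i1 + 16 * s2 + ne (X b2) i2 := by linarith
  have r01 : (s1 : ℤ) * i0 ≤ 6 * (LL * G1 (X b0) i0) + u1 (X b0) := by exact_mod_cast R0.r1
  have r02 : 6 * ((LL : ℤ) * G1 (X b0) i0) ≤ s1 * i0 + w1 (X b0) := by exact_mod_cast R0.r2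
  have r03 : 6 * ((LL : ℤ) * G2 (X b0) i0) ≤ s2 * i0 + w2 (X b0) := by exact_mod_cast R0.r3
  have r04 : 6 * ((LL : ℤ) * ne (X b0) i0) + s2 * i0 ≤ 6 * (LL * G2 (X b0) i0) + u2 (X b0) := by
    exact_mod_cast R0.r4
  have r11 : (s1 : ℤ) * i1 ≤ 6 * (LL * G1 (X b1) i1) + u1 (X b1) := by exact_mod_cast R1.r1
  have r12 : 6 * ((LL : ℤ) * G1 (X b1) i1) ≤ s1 * i1 + w1 (X b1) := by exact_mod_cast R1.r2
  have r13 : 6 * ((LL : ℤ) * G2 (X b1) i1) ≤ s2 * i1 + w2 (X b1) := by exact_mod_cast R1.r3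
  have r14 : 6 * ((LL : ℤ) * ne (X b1) i1) + s2 * i1 ≤ 6 * (LL * G2 (X b1) i1) + u2 (X b1) := by
    exact_mod_cast R1.r4
  have r21 : (s1 : ℤ) * i2 ≤ 6 * (LL * G1 (X b2) i2) + u1 (X b2) := by exact_mod_cast R2.r1
  have r22 : 6 * ((LL : ℤ) * G1 (X b2) i2) ≤ s1 * i2 + w1 (X b2) := by exact_mod_cast R2.r2
  have r23 : 6 * ((LL : ℤ) * G2 (X b2) i2) ≤ s2 * i2 + w2 (X b2) := by exact_mod_cast R2.r3
  have r24 : 6 * ((LL : ℤ) * ne (X b2) i2) + s2 * i2 ≤ 6 * (LL * G2 (X b2) i2) + u2 (X b2) := by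
    exact_mod_cast R2.r4
  have B1 : (s1 : ℤ) * (LL * E) + s1 * i0 + s1 * i2 = 96 * LL * s1 + 2 * (s1 * i1) := by
    linear_combination (s1 : ℤ) * A1
  have B2 : (LL : ℤ) * v1 + LL * G1 (X b2) i2 + LL * G1 (X b0) i0 =
      2 * (LL * G1 (X b1) i1) + 16 * LL * s1 := by
    linear_combination (LL : ℤ) * A2
  have B3 : (s2 : ℤ) * (LL * E) + s2 * i0 + s2 * i2 = 96 * LL * s2 + 2 * (s2 * i1) := by
    linear_combination (s2 : ℤ) * A1
  have B4 : (LL : ℤ) * v2 + LL * G2 (X b2) i2 + LL * G2 (X b0) i0 + LL * ne (X b1) i1 =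
      2 * (LL * G2 (X b1) i1) + 16 * LL * s2 + LL * ne (X b2) i2 := by
    linear_combination (LL : ℤ) * A3
  rcases hT with (((hT | hT) | hT) | hT) | hT
  · have hT' : 6 * ((LL : ℤ) * v1) + (w1 (X b0) + (w1 (X b2) + 2 * u1 (X b1))) <
        s1 * (LL * E) := by exact_mod_cast hT
    linarith
  · have hT' : (s1 : ℤ) * (LL * E) + (u1 (X b0) + (u1 (X b2) + 2 * w1 (X b1))) <
        6 * (LL * v1) := by exact_mod_cast hT
    linarith
  · have hT' : 6 * ((LL : ℤ) * v2) + (w2 (X b0) + (w2 (X b2) + 2 * u2 (X b1))) <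
        s2 * (LL * E) := by exact_mod_cast hT
    linarith
  · have hT' : (s2 : ℤ) * (LL * E) + (u2 (X b0) + (u2 (X b2) + 2 * w2 (X b1))) <
        6 * (LL * v2) := by exact_mod_cast hT
    linarith
  · have hrow := allR'_spec _ LL hT i1 h1
    obtain ⟨dA1, dB1⟩ := dev_ok (X_lt b1) h1
    have dA1' : (dA (X b1) i1 : ℤ) + 2 * (s1 * i1) = 1073741824 + 12 * (LL * G1 (X b1) i1) := by
      exact_mod_cast dA1
    have dB1' : (dB (X b1) i1 : ℤ) + (2 * (s2 * i1) + 6 * (LL * ne (X b1) i1)) =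
        1073741824 + (6 * LL + 12 * (LL * G2 (X b1) i1)) := by
      exact_mod_cast dB1
    refine rowT_spec (X_lt b0) (X_lt b2) h0 h2 hrow ?_ ?_ ?_ ?_ ?_ ?_
    · have : ((1073741824 + 6 * LL * v1 : ℕ) : ℤ) ≤
          ((dA (X b1) i1 + (s1 * (LL * E) + (u1 (X b0) + u1 (X b2))) : ℕ) : ℤ) := by
        push_cast; linarith
      have this2 : 1073741824 + 6 * LL * v1 ≤
          dA (X b1) i1 + (s1 * (LL * E) + (u1 (X b0) + u1 (X b2))) := by exact_mod_cast this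
      exact Nat.sub_le_of_le_add this2
    · have : ((dA (X b1) i1 + s1 * (LL * E) : ℕ) : ℤ) ≤
          ((1073741824 + (6 * LL * v1 + (w1 (X b0) + w1 (X b2))) : ℕ) : ℤ) := by
        push_cast; linarith
      have this2 : dA (X b1) i1 + s1 * (LL * E) ≤
          1073741824 + (6 * LL * v1 + (w1 (X b0) + w1 (X b2))) := by exact_mod_cast this
      exact Nat.le_sub_of_add_le this2
    · have : ((1073741824 + 6 * LL * (v2 + 1) : ℕ) : ℤ) ≤
          ((dB (X b1) i1 + (s2 * (LL * E) + (u2 (X b0) + u2 (X b2))) : ℕ) : ℤ) := by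
        push_cast; linarith
      have this2 : 1073741824 + 6 * LL * (v2 + 1) ≤
          dB (X b1) i1 + (s2 * (LL * E) + (u2 (X b0) + u2 (X b2))) := by exact_mod_cast this
      exact Nat.sub_le_of_le_add this2
    · have : ((dB (X b1) i1 + s2 * (LL * E) : ℕ) : ℤ) ≤
          ((1073741824 + (6 * LL * (v2 + 1) + (w2 (X b0) + w2 (X b2))) : ℕ) : ℤ) := by
        push_cast; linarith
      have this2 : dB (X b1) i1 + s2 * (LL * E) ≤
          1073741824 + (6 * LL * (v2 + 1) + (w2 (X b0) + w2 (X b2))) := by exact_mod_cast this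
      exact Nat.le_sub_of_add_le this2
    · have : ((i0 + i2 + LL * E : ℕ) : ℤ) = ((2 * i1 + 96 * LL : ℕ) : ℤ) := by
        push_cast; linarith
      exact_mod_cast this
    · have : ((c0 (X b0) i0 + c2 (X b2) i2 + (v1 + 2048 * v2) : ℕ) : ℤ) =
        ((c1 (X b1) i1 + 16 * (s1 + 2048 * s2) : ℕ) : ℤ) := by
        push_cast; linarith
      exact_mod_cast this

end Pool.Agent.Work.MP_6f77e1_co
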