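import Mathlib
import Pool.Agent.Work.MP_6f77e1_co.RowSpec

set_option autoImplicit false

namespace Pool.Agent.Work.MP_6f77e1_co

theorem ones_mul (n : ℕ) : ones n * 4294967295 + 1 = 2 ^ (32 * n) := by
  induction n with
  | zero => simp [ones]
  | succ n ih =>
    rw [ones, show 32 * (n + 1) = 32 * n + 32 by ring, pow_add, ← ih]
    ring

/-- `ones n` computed directly -/
def onesN (n : ℕ) : ℕ := Nat.div (Nat.sub (Nat.shiftLeft 1 (Nat.mul 32 n)) 1) 4294967295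

theorem onesN_eq (n : ℕ) : onesN n = ones n := by
  have h : onesN n = ((1 <<< (32 * n)) - 1) / 4294967295 := rfl
  rw [h, Nat.one_shiftLeft, ← ones_mul n, Nat.add_sub_cancel,
    Nat.mul_div_cancel _ (by norm_num)]

/-- packed `V₁ + 2048 V₂` -/
def WV (a : ℕ) : ℕ := Nat.add (V1 a) (Nat.mul 2048 (V2 a))

/-- conflicts inside a block -/
def chkS1 (a i1 : ℕ) : Bool :=
  Nat.blt i1 KK ||
  rowOK (onesN (Nat.sub (Nat.add i1 1) KK)) (Nat.add (P0 a) (Nat.shiftRight (P2 a)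
    (Nat.mul 32 (Nat.sub (Nat.sub (Nat.mul 2 LL) 1) (Nat.mul 2 i1))))) (c1 a i1)

/-- conflicts with the first two positions in a block `a` and the third one in the next block `b` -/
def chkS2 (a b i1 : ℕ) : Bool :=
  Nat.blt i1 KK || Nat.blt (Nat.mul 2 i1) LL ||
  rowOK (onesN (Nat.sub (Nat.add i1 1) KK)) (Nat.add (P0 a) (Nat.shiftRight (P2 b)
    (Nat.mul 32 (Nat.sub (Nat.sub (Nat.mul 2 LL) 1) (Nat.sub (Nat.mul 2 i1) LL)))))
    (Nat.sub (c1 a i1) (WV a))

/-- conflicts with the first position in a block `a` and the others in the next block `b` -/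
def chkS3 (a b i1 : ℕ) : Bool :=
  Nat.blt (Nat.sub (Nat.mul 2 LL) 2) (Nat.add (Nat.mul 2 i1) LL) ||
  rowOK (onesN (Nat.sub (Nat.add LL (Nat.add i1 1)) KK)) (Nat.add (P0 a) (Nat.shiftRight (P2 b)
    (Nat.mul 32 (Nat.sub (Nat.sub (Nat.mul 2 LL) 1) (Nat.add (Nat.mul 2 i1) LL)))))
    (Nat.add (c1 b i1) (WV a))

/-- the rows with `KK ≤ i1` of the third kind -/
def chkS3' (a b i1 : ℕ) : Bool :=
  Nat.blt (Nat.sub (Nat.mul 2 LL) 2) (Nat.add (Nat.mul 2 i1) LL) ||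
  rowOK onesL (Nat.add (P0 a) (Nat.shiftRight (P2 b)
    (Nat.mul 32 (Nat.sub (Nat.sub (Nat.mul 2 LL) 1) (Nat.add (Nat.mul 2 i1) LL)))))
    (Nat.add (c1 b i1) (WV a))

/-- factors of length two -/
def inF2 (a b : ℕ) : Bool := F3L.any (fun x => Nat.beq (Nat.mod x 64) (Nat.add a (Nat.mul 8 b)))

def chkSpec : Bool :=
  allN (fun a => allN (fun i => chkS1 a i) LL) 6 &&
  allN (fun a => allN (fun b => !inF2 a b || (allN (fun i => chkS2 a b i) LL &&
    allN (fun i => if Nat.blt i KK then chkS3 a b i else chkS3' a b i) LL)) 6) 6 &&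
  Nat.ble 1 KK

theorem chkSpec_true : chkSpec = true := by decide +kernel

theorem inF2_of (q : ℕ) : inF2 (X q) (X (q + 1)) = true := by
  have h := F3_mem q
  have h1 : ∀ a < 6, ∀ b < 6, ∀ c < 6, inF3 (a + 8 * b + 64 * c) = true → inF2 a b = true := by
    decide +kernel
  exact h1 _ (X_lt _) _ (X_lt _) _ (X_lt _) h

theorem S1_spec {a i0 i1 i2 : ℕ} (ha : a < 6) (h1 : i1 < LL)
    (hS : i0 + i2 = 2 * i1) (hp : i0 + KK ≤ i1)
    (hc : c0 a i0 + c2 a i2 = c1 a i1) : False := by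
  have h := chkSpec_true
  rw [chkSpec, Bool.and_eq_true, Bool.and_eq_true] at h
  have h := allN_spec _ LL (allN_spec _ 6 h.1.1 a ha) i1 h1
  rw [chkS1, Bool.or_eq_true] at h
  rcases h with h | h
  · rw [Nat.blt_eq] at h; omega
  · rw [onesN_eq] at h
    have hn : Nat.sub (Nat.add i1 1) KK = i1 + 1 - KK := rfl
    rw [hn] at h
    have hr := row_spec ha ha (show i1 + 1 - KK ≤ LL by omega) h i0 (by omega)
    have e1 : Nat.sub (Nat.sub (Nat.mul 2 LL) 1) (Nat.mul 2 i1) = 2 * LL - 1 - 2 * i1 := rfl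
    rw [e1] at hr
    apply hr
    have e3 : i0 + (2 * LL - 1 - 2 * i1) = 2 * LL - 1 - i2 := by omega
    rw [e3]
    have e4 : c2 a i2 = fld (P2 a) (2 * LL - 1 - i2) := rfl
    have e5 : c0 a i0 = fld (P0 a) i0 := rfl
    rw [← e4, ← e5]
    exact hc

theorem S2_spec {a b i0 i1 i2 : ℕ} (ha : a < 6) (hb : b < 6) (hab : inF2 a b = true)
    (h1 : i1 < LL)
    (hS : i0 + i2 + LL = 2 * i1) (hp : i0 + KK ≤ i1)
    (hc : c0 a i0 + c2 b i2 + WV a = c1 a i1) : False := by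
  have h := chkSpec_true
  rw [chkSpec, Bool.and_eq_true, Bool.and_eq_true] at h
  have h := allN_spec _ 6 (allN_spec _ 6 h.1.2 a ha) b hb
  rw [hab, Bool.not_true, Bool.false_or, Bool.and_eq_true] at h
  have h := allN_spec _ LL h.1 i1 h1
  rw [chkS2, Bool.or_eq_true, Bool.or_eq_true] at h
  rcases h with (h | h) | h
  · rw [Nat.blt_eq] at h; omega
  · rw [Nat.blt_eq] at h
    have : Nat.mul 2 i1 = 2 * i1 := rfl
    omega
  · rw [onesN_eq] at h
    have hn : Nat.sub (Nat.add i1 1) KK = i1 + 1 - KK := rfl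
    rw [hn] at h
    have hr := row_spec ha hb (show i1 + 1 - KK ≤ LL by omega) h i0 (by omega)
    have e1 : Nat.sub (Nat.sub (Nat.mul 2 LL) 1) (Nat.sub (Nat.mul 2 i1) LL) =
      2 * LL - 1 - (2 * i1 - LL) := rfl
    have e2 : Nat.sub (c1 a i1) (WV a) = c1 a i1 - WV a := rfl
    rw [e1, e2] at hr
    apply hr
    have e3 : i0 + (2 * LL - 1 - (2 * i1 - LL)) = 2 * LL - 1 - i2 := by omega
    rw [e3]
    have e4 : c2 b i2 = fld (P2 b) (2 * LL - 1 - i2) := rfl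
    have e5 : c0 a i0 = fld (P0 a) i0 := rfl
    rw [← e4, ← e5]
    omega

theorem S3_spec {a b i0 i1 i2 : ℕ} (ha : a < 6) (hb : b < 6) (hab : inF2 a b = true)
    (h0 : i0 < LL) (h1 : i1 < LL) (h2 : i2 < LL)
    (hS : i0 + i2 = 2 * i1 + LL) (hp : i0 + KK ≤ LL + i1)
    (hc : c0 a i0 + c2 b i2 = c1 b i1 + WV a) : False := by
  have h := chkSpec_true
  rw [chkSpec, Bool.and_eq_true, Bool.and_eq_true] at h
  have h := allN_spec _ 6 (allN_spec _ 6 h.1.2 a ha) b hb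
  rw [hab, Bool.not_true, Bool.false_or, Bool.and_eq_true] at h
  have h := allN_spec _ LL h.2 i1 h1
  have e1 : Nat.sub (Nat.sub (Nat.mul 2 LL) 1) (Nat.add (Nat.mul 2 i1) LL) =
      2 * LL - 1 - (2 * i1 + LL) := rfl
  have e2 : Nat.add (c1 b i1) (WV a) = c1 b i1 + WV a := rfl
  have e3 : i0 + (2 * LL - 1 - (2 * i1 + LL)) = 2 * LL - 1 - i2 := by omega
  have e4 : c2 b i2 = fld (P2 b) (2 * LL - 1 - i2) := rfl
  have e5 : c0 a i0 = fld (P0 a) i0 := rfl
  have e6 : Nat.sub (Nat.mul 2 LL) 2 = 2 * LL - 2 := rfl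
  have e7 : Nat.add (Nat.mul 2 i1) LL = 2 * i1 + LL := rfl
  split_ifs at h with hk
  · rw [Nat.blt_eq] at hk
    rw [chkS3, Bool.or_eq_true] at h
    rcases h with h | h
    · rw [Nat.blt_eq, e6, e7] at h; omega
    · rw [onesN_eq] at h
      have hn : Nat.sub (Nat.add LL (Nat.add i1 1)) KK = LL + (i1 + 1) - KK := rfl
      rw [hn] at h
      have hr := row_spec ha hb (show LL + (i1 + 1) - KK ≤ LL by omega) h i0 (by omega)
      rw [e1, e2, e3, ← e4, ← e5] at hr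
      exact hr hc
  · rw [chkS3', Bool.or_eq_true] at h
    rcases h with h | h
    · rw [Nat.blt_eq, e6, e7] at h; omega
    · rw [onesL_eq] at h
      have hr := row_spec ha hb (le_refl LL) h i0 h0
      rw [e1, e2, e3, ← e4, ← e5] at hr
      exact hr hc

end Pool.Agent.Work.MP_6f77e1_co
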