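import Mathlib
import Pool.Agent.Work.MP_6f77e1_co.Row

set_option autoImplicit false

namespace Pool.Agent.Work.MP_6f77e1_co

theorem chkTA_0 : allB chkTA 10 0 = true := by decide +kernel
theorem chkTA_1 : allB chkTA 10 1024 = true := by decide +kernel
theorem chkTA_2 : allB chkTA 10 2048 = true := by decide +kernel
theorem chkTA_3 : allB chkTA 10 3072 = true := by decide +kernel
theorem chkTA_4 : allB chkTA 10 4096 = true := by decide +kernel
theorem chkTA_5 : allB chkTA 10 5120 = true := by decide +kernel

end Pool.Agent.Work.MP_6f77e1_co
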