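import Mathlib
import Pool.Agent.Work.MP_6f77e1_co.Row

set_option autoImplicit false

namespace Pool.Agent.Work.MP_6f77e1_co

theorem chkTA_6 : allB chkTA 10 6144 = true := by decide +kernel
theorem chkTA_7 : allB chkTA 10 7168 = true := by decide +kernel
theorem chkTA_8 : allB chkTA 10 8192 = true := by decide +kernel
theorem chkTA_9 : allB chkTA 10 9216 = true := by decide +kernel
theorem chkTA_10 : allB chkTA 10 10240 = true := by decide +kernel

end Pool.Agent.Work.MP_6f77e1_co
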