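import Mathlib
import Pool.Agent.Work.MP_6f77e1_co.Special
import Pool.Agent.Work.MP_6f77e1_co.TA1
import Pool.Agent.Work.MP_6f77e1_co.TA2
import Pool.Agent.Work.MP_6f77e1_co.TB1
import Pool.Agent.Work.MP_6f77e1_co.TB2
import Pool.Agent.Work.MP_6f77e1_co.Occ

set_option autoImplicit false

namespace Pool.Agent.Work.MP_6f77e1_co

theorem chkTA_all (i : ℕ) (hi : i < 11003) : chkTA i = true := by
  by_cases h0 : i < 1024
  · exact allB_spec _ 10 _ chkTA_0 i (by omega) (by omega)
  by_cases h1 : i < 2048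
  · exact allB_spec _ 10 _ chkTA_1 i (by omega) (by omega)
  by_cases h2 : i < 3072
  · exact allB_spec _ 10 _ chkTA_2 i (by omega) (by omega)
  by_cases h3 : i < 4096
  · exact allB_spec _ 10 _ chkTA_3 i (by omega) (by omega)
  by_cases h4 : i < 5120
  · exact allB_spec _ 10 _ chkTA_4 i (by omega) (by omega)
  by_cases h5 : i < 6144
  · exact allB_spec _ 10 _ chkTA_5 i (by omega) (by omega)
  by_cases h6 : i < 7168
  · exact allB_spec _ 10 _ chkTA_6 i (by omega) (by omega)
  by_cases h7 : i < 8192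
  · exact allB_spec _ 10 _ chkTA_7 i (by omega) (by omega)
  by_cases h8 : i < 9216
  · exact allB_spec _ 10 _ chkTA_8 i (by omega) (by omega)
  by_cases h9 : i < 10240
  · exact allB_spec _ 10 _ chkTA_9 i (by omega) (by omega)
  · exact allB_spec _ 10 _ chkTA_10 i (by omega) (by omega)

theorem chkTB_all (i : ℕ) (hi : i < 11027) : chkTB i = true := by
  by_cases h0 : i < 1024
  · exact allB_spec _ 10 _ chkTB_0 i (by omega) (by omega)
  by_cases h1 : i < 2048
  · exact allB_spec _ 10 _ chkTB_1 i (by omega) (by omega)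
  by_cases h2 : i < 3072
  · exact allB_spec _ 10 _ chkTB_2 i (by omega) (by omega)
  by_cases h3 : i < 4096
  · exact allB_spec _ 10 _ chkTB_3 i (by omega) (by omega)
  by_cases h4 : i < 5120
  · exact allB_spec _ 10 _ chkTB_4 i (by omega) (by omega)
  by_cases h5 : i < 6144
  · exact allB_spec _ 10 _ chkTB_5 i (by omega) (by omega)
  by_cases h6 : i < 7168
  · exact allB_spec _ 10 _ chkTB_6 i (by omega) (by omega)
  by_cases h7 : i < 8192
  · exact allB_spec _ 10 _ chkTB_7 i (by omega) (by omega)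
  by_cases h8 : i < 9216
  · exact allB_spec _ 10 _ chkTB_8 i (by omega) (by omega)
  by_cases h9 : i < 10240
  · exact allB_spec _ 10 _ chkTB_9 i (by omega) (by omega)
  · exact allB_spec _ 10 _ chkTB_10 i (by omega) (by omega)

theorem chkT_of_inTab (k : ℕ) (h : inTab k = true) : chkT k = true := by
  rw [inTab, Bool.and_eq_true, Bool.or_eq_true] at h
  obtain ⟨h0, h⟩ := h
  have h0' : 511 < k := Nat.blt_eq.mp h0
  have hk0 : Nat.beq k 0 = false := by
    rw [← Bool.not_eq_true, Nat.beq_eq]; omega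
  rcases h with h | h
  · have e := Nat.eq_of_beq_eq_true h
    have hc := chkTA_all (Nat.mod k 11003) (Nat.mod_lt _ (by norm_num))
    rw [chkTA, force_eq, e, hk0, Bool.false_or] at hc
    exact hc
  · have e := Nat.eq_of_beq_eq_true h
    have hc := chkTB_all (Nat.mod k 11027) (Nat.mod_lt _ (by norm_num))
    rw [chkTB, force_eq, e, hk0, Bool.false_or] at hc
    exact hc

theorem KK_pos : 1 ≤ KK := by
  have h := chkSpec_true
  rw [chkSpec, Bool.and_eq_true, Bool.and_eq_true] at h
  exact Nat.le_of_ble_eq_true h.2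

/-- The word has no conflict with period at least `KK`. -/
theorem no_conf (c p : ℕ) (hp : KK ≤ p) (h : Conf wd c p) : False := by
  have hp1 : 1 ≤ p := le_trans KK_pos hp
  have hL := LL_pos
  have e0 : c = LL * (c / LL) + c % LL := (Nat.div_add_mod c LL).symm
  have e1 : c + p = LL * ((c + p) / LL) + (c + p) % LL := (Nat.div_add_mod _ LL).symm
  have e2 : c + 2 * p = LL * ((c + 2 * p) / LL) + (c + 2 * p) % LL := (Nat.div_add_mod _ LL).symm
  have h0 : c % LL < LL := Nat.mod_lt _ hL
  have h1 : (c + p) % LL < LL := Nat.mod_lt _ hL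
  have h2 : (c + 2 * p) % LL < LL := Nat.mod_lt _ hL
  have h01 : c / LL ≤ (c + p) / LL := Nat.div_le_div_right (by omega)
  have h12 : (c + p) / LL ≤ (c + 2 * p) / LL := Nat.div_le_div_right (by omega)
  generalize c / LL = b0 at *
  generalize (c + p) / LL = b1 at *
  generalize (c + 2 * p) / LL = b2 at *
  generalize c % LL = i0 at *
  generalize (c + p) % LL = i1 at *
  generalize (c + 2 * p) % LL = i2 at *
  have hcode := conf_codes hp1 h e0 e1 e2 h0 h1 h2
  obtain ⟨a1, -, -⟩ := conf_parts hp1 h e0 e1 e2 h0 h1 h2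
  have hW := conf_InW hp1 h e0 e1 e2 h0 h1 h2
  have w1 := hW.e1
  have w2 := hW.e2
  by_cases hs : b0 < b1 ∧ b1 < b2
  · obtain ⟨k, hk⟩ := all_rep b2 b0 b1 hs.1 hs.2 hW
    exact chkT_spec hk (chkT_of_inTab k hk.tab) hp1 h e0 e1 e2 h0 h1 h2
  · have hcases : (b1 = b0 ∧ b2 = b0) ∨ (b1 = b0 ∧ b2 = b0 + 1) ∨ (b1 = b0 + 1 ∧ b2 = b0 + 1) := by
      omega
    clear hW hs w1 w2
    rcases hcases with ⟨rfl, rfl⟩ | ⟨rfl, rfl⟩ | ⟨rfl, rfl⟩
    · have z : DD V1f b2 b2 b2 = 0 ∧ DD V2f b2 b2 b2 = 0 := by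
        constructor <;> (rw [DD]; ring)
      rw [z.1, z.2] at hcode
      refine S1_spec (X_lt b2) (i0 := i0) (i1 := i1) (i2 := i2) h1 ?_ ?_ ?_
      · have : ((i0 + i2 : ℕ) : ℤ) = ((2 * i1 : ℕ) : ℤ) := by push_cast; linarith
        exact_mod_cast this
      · omega
      · have : ((c0 (X b2) i0 + c2 (X b2) i2 : ℕ) : ℤ) = ((c1 (X b2) i1 : ℕ) : ℤ) := by
          push_cast; linarith
        exact_mod_cast this
    · have z1 : DD V1f b1 b1 (b1 + 1) = V1 (X b1) := by
        rw [DD, Psi_succ, V1f]; ring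
      have z2 : DD V2f b1 b1 (b1 + 1) = V2 (X b1) := by
        rw [DD, Psi_succ, V2f]; ring
      rw [z1, z2] at hcode
      refine S2_spec (X_lt b1) (X_lt (b1 + 1)) (inF2_of b1) (i0 := i0) (i1 := i1) (i2 := i2)
        h1 ?_ ?_ ?_
      · have : ((i0 + i2 + LL : ℕ) : ℤ) = ((2 * i1 : ℕ) : ℤ) := by
          push_cast
          push_cast at a1
          linarith
        exact_mod_cast this
      · omega
      · have : ((c0 (X b1) i0 + c2 (X (b1 + 1)) i2 + WV (X b1) : ℕ) : ℤ) =
          ((c1 (X b1) i1 : ℕ) : ℤ) := by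
          have : WV (X b1) = V1 (X b1) + 2048 * V2 (X b1) := rfl
          rw [this]
          push_cast; linarith
        exact_mod_cast this
    · have z1 : DD V1f b0 (b0 + 1) (b0 + 1) = -V1 (X b0) := by
        rw [DD, Psi_succ, V1f]; ring
      have z2 : DD V2f b0 (b0 + 1) (b0 + 1) = -V2 (X b0) := by
        rw [DD, Psi_succ, V2f]; ring
      rw [z1, z2] at hcode
      refine S3_spec (X_lt b0) (X_lt (b0 + 1)) (inF2_of b0) (i0 := i0) (i1 := i1) (i2 := i2)
        h0 h1 h2 ?_ ?_ ?_
      · have : ((i0 + i2 : ℕ) : ℤ) = ((2 * i1 + LL : ℕ) : ℤ) := by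
          push_cast
          push_cast at a1
          linarith
        exact_mod_cast this
      · have e : LL * (b0 + 1) = LL * b0 + LL := by ring
        rw [e] at e1
        omega
      · have : ((c0 (X b0) i0 + c2 (X (b0 + 1)) i2 : ℕ) : ℤ) =
          ((c1 (X (b0 + 1)) i1 + WV (X b0) : ℕ) : ℤ) := by
          have : WV (X b0) = V1 (X b0) + 2048 * V2 (X b0) := rfl
          rw [this]
          push_cast; linarith
        exact_mod_cast this

/-- 2-abelian squares of period at least `KK` are avoidable over two letters -/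
theorem avoidable_KK : Avoidable KK :=
  ⟨wd, fun i n p hp hs => by
    obtain ⟨-, hc⟩ := conf_of_square wd i n p hs
    exact no_conf i p hp hc⟩

end Pool.Agent.Work.MP_6f77e1_co
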