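import Mathlib
import Pool.Agent.Work.MP_6f77e1_co.Occ

set_option autoImplicit false

namespace Pool.Agent.Work.MP_6f77e1_co

/-- Boolean test of 2-abelian equivalence -/
def eq2 (u v : List Bool) : Bool :=
  Nat.beq (occ [true] u) (occ [true] v) && Nat.beq (occ [false] u) (occ [false] v) &&
  Nat.beq (occ [true, true] u) (occ [true, true] v) &&
  Nat.beq (occ [true, false] u) (occ [true, false] v) &&
  Nat.beq (occ [false, true] u) (occ [false, true] v) &&
  Nat.beq (occ [false, false] u) (occ [false, false] v)

theorem eq2_spec (u v : List Bool) (h : eq2 u v = true) : KAbelianEquiv 2 u v := by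
  simp only [eq2, Bool.and_eq_true, Nat.beq_eq] at h
  obtain ⟨⟨⟨⟨⟨h1, h2⟩, h3⟩, h4⟩, h5⟩, h6⟩ := h
  intro x hx1 hx2
  match x, hx1, hx2 with
  | [], hx1, _ => simp at hx1
  | [true], _, _ => exact h1
  | [false], _, _ => exact h2
  | [true, true], _, _ => exact h3
  | [true, false], _, _ => exact h4
  | [false, true], _, _ => exact h5
  | [false, false], _, _ => exact h6
  | _ :: _ :: _ :: _, _, hx2 => simp at hx2

/-- some suffix of the reversed word `r` is a 2-abelian square with period in `[2, p]` -/
def sufSq (r : List Bool) : ℕ → Bool
  | 0 => false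
  | p + 1 => (Nat.ble 2 (p + 1) && Nat.ble (2 * (p + 1)) r.length &&
      eq2 ((r.drop (p + 1)).take (p + 1)).reverse (r.take (p + 1)).reverse) || sufSq r p

def dfs : ℕ → List Bool → Bool
  | 0, _ => false
  | n + 1, r => sufSq r (r.length / 2) || (dfs n (true :: r) && dfs n (false :: r))

theorem dfs_ok : dfs 20 [] = true := by decide +kernel

theorem sufSq_spec (r : List Bool) (n : ℕ) (h : sufSq r n = true) : ∃ p, 2 ≤ p ∧
    2 * p ≤ r.length ∧ eq2 ((r.drop p).take p).reverse (r.take p).reverse = true := by
  induction n with
  | zero => simp [sufSq] at h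
  | succ n ih =>
    rw [sufSq, Bool.or_eq_true, Bool.and_eq_true, Bool.and_eq_true] at h
    rcases h with h | h
    · exact ⟨n + 1, Nat.le_of_ble_eq_true h.1.1, Nat.le_of_ble_eq_true h.1.2, h.2⟩
    · exact ih h

theorem reverse_factor_take (w : ℕ → Bool) (m p : ℕ) (hp : p ≤ m) :
    (((factor w 0 m).reverse).take p).reverse = factor w (m - p) p := by
  obtain ⟨q, rfl⟩ : ∃ q, m = q + p := ⟨m - p, by omega⟩
  rw [factor_append, List.reverse_append, List.take_append_of_le_length (by
    rw [List.length_reverse, factor_length]), List.take_of_length_le (by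
    rw [List.length_reverse, factor_length]), List.reverse_reverse]
  congr 1
  omega

theorem reverse_factor_drop (w : ℕ → Bool) (m p : ℕ) (hp : p ≤ m) :
    ((factor w 0 m).reverse).drop p = (factor w 0 (m - p)).reverse := by
  obtain ⟨q, rfl⟩ : ∃ q, m = q + p := ⟨m - p, by omega⟩
  rw [factor_append, List.reverse_append, List.drop_append_of_le_length (by
    rw [List.length_reverse, factor_length]), List.drop_of_length_le (by
    rw [List.length_reverse, factor_length]), List.nil_append]
  congr 2
  omega

theorem dfs_spec (w : ℕ → Bool) (n : ℕ) : ∀ m, dfs n (factor w 0 m).reverse = true →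
    ∃ i l p : ℕ, 2 ≤ p ∧ IsTwoAbelianSquare (factor w i l) p := by
  induction n with
  | zero => intro m h; simp [dfs] at h
  | succ n ih =>
    intro m h
    rw [dfs, Bool.or_eq_true, Bool.and_eq_true] at h
    rcases h with h | h
    · obtain ⟨p, hp2, hpl, he⟩ := sufSq_spec _ _ h
      rw [List.length_reverse, factor_length] at hpl
      rw [reverse_factor_drop w m p (by omega), reverse_factor_take w (m - p) p (by omega),
        reverse_factor_take w m p (by omega)] at he
      refine ⟨m - p - p, p + p, p, hp2, factor w (m - p - p) p, factor w (m - p) p, ?_, ?_, ?_,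
        eq2_spec _ _ he, factor_length _ _ _⟩
      · rw [factor_append]
        congr 2
        omega
      · intro h0
        have := congrArg List.length h0
        rw [factor_length] at this
        simp at this
        omega
      · intro h0
        have := congrArg List.length h0
        rw [factor_length] at this
        simp at this
        omega
    · have hstep : w m :: (factor w 0 m).reverse = (factor w 0 (m + 1)).reverse := by
        rw [factor_append, List.reverse_append]
        have : factor w (0 + m) 1 = [w m] := by
          rw [factor_succ, factor_zero, zero_add]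
        rw [this]
        rfl
      apply ih (m + 1)
      rw [← hstep]
      cases w m
      · exact h.2
      · exact h.1

/-- every infinite binary word contains a 2-abelian square of period at least two -/
theorem not_avoidable_two : ¬ Avoidable 2 := by
  rintro ⟨w, hw⟩
  obtain ⟨i, l, p, hp, hs⟩ := dfs_spec w 20 0 (by rw [factor_zero]; exact dfs_ok)
  exact hw i l p hp hs

/-- the property is monotone -/
theorem Avoidable.mono {j k : ℕ} (hjk : j ≤ k) (h : Avoidable j) : Avoidable k := by
  obtain ⟨w, hw⟩ := h
  exact ⟨w, fun i n p hp => hw i n p (le_trans hjk hp)⟩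

end Pool.Agent.Work.MP_6f77e1_co
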